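import Pool.Agent.Y114.MU.JM

/-!
# Generation of the Lie algebra of a form by elements of degree 1 and -1
-/

set_option autoImplicit false

namespace Pool.Agent.D0H90.MJ

open Module Pool.Agent.Y114.MU

variable {k : Type*} [Field k] [CharZero k] {V : Type*} [AddCommGroup V] [Module k V]
  [FiniteDimensional k V] {N H f : End k V} {r : ℕ} {v : V}

/-- the endomorphism `x ↦ B (u', x) u - s B (u, x) u'` -/
noncomputable def WW (B : V →ₗ[k] V →ₗ[k] k) (s : k) (u u' : V) : End k V :=
  (B u').smulRight u - s • (B u).smulRight u'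

theorem WW_apply (B : V →ₗ[k] V →ₗ[k] k) (s : k) (u u' x : V) :
    WW B s u u' x = B u' x • u - (s * B u x) • u' := by
  unfold WW
  rw [LinearMap.sub_apply, LinearMap.smul_apply, LinearMap.smulRight_apply,
    LinearMap.smulRight_apply, smul_smul]

variable {B : V →ₗ[k] V →ₗ[k] k} {s : k}

theorem WW_add_left (u₁ u₂ u' : V) : WW B s (u₁ + u₂) u' = WW B s u₁ u' + WW B s u₂ u' := by
  refine LinearMap.ext fun x => ?_
  simp only [LinearMap.add_apply, WW_apply, map_add, smul_add, mul_add, add_smul]
  abel

theorem WW_add_right (u u₁ u₂ : V) : WW B s u (u₁ + u₂) = WW B s u u₁ + WW B s u u₂ := by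
  refine LinearMap.ext fun x => ?_
  simp only [LinearMap.add_apply, WW_apply, map_add, smul_add, mul_add, add_smul]
  abel

theorem WW_smul_left (c : k) (u u' : V) : WW B s (c • u) u' = c • WW B s u u' := by
  refine LinearMap.ext fun x => ?_
  simp only [LinearMap.smul_apply, WW_apply, map_smul, smul_sub, smul_smul, smul_eq_mul]
  congr 2
  · ring
  · ring

theorem WW_smul_right (c : k) (u u' : V) : WW B s u (c • u') = c • WW B s u u' := by
  refine LinearMap.ext fun x => ?_
  simp only [LinearMap.smul_apply, WW_apply, map_smul, smul_sub, smul_smul, smul_eq_mul]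
  congr 2
  ring

theorem WW_zero_left (u' : V) : WW B s 0 u' = 0 := by
  have := WW_smul_left (B := B) (s := s) 0 0 u'
  rwa [zero_smul, zero_smul] at this

theorem WW_zero_right (u : V) : WW B s u 0 = 0 := by
  have := WW_smul_right (B := B) (s := s) 0 u 0
  rwa [zero_smul, zero_smul] at this

theorem WW_swap (hs : s * s = 1) (u u' : V) : WW B s u' u = -s • WW B s u u' := by
  refine LinearMap.ext fun x => ?_
  rw [LinearMap.smul_apply, WW_apply, WW_apply, smul_sub, smul_smul, smul_smul]
  have h1 : -s * (s * B u x) = - B u x := by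
    rw [← mul_assoc, neg_mul, hs]
    ring
  rw [h1, neg_mul, neg_smul, neg_smul, sub_neg_eq_add]
  abel

theorem WW_bracket {X : End k V} (hX : ∀ x y, B (X x) y = - B x (X y)) (u u' : V) :
    X * WW B s u u' - WW B s u u' * X = WW B s (X u) u' + WW B s u (X u') := by
  refine LinearMap.ext fun x => ?_
  rw [LinearMap.sub_apply, LinearMap.add_apply, Module.End.mul_apply, Module.End.mul_apply,
    WW_apply, WW_apply, WW_apply, WW_apply, map_sub, map_smul, map_smul, hX, hX, mul_neg, neg_smul,
    neg_smul]
  abel

/-- The operator which is diagonal in the basis `N ^ j v`. -/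
noncomputable def di (T : Triple N H f r v) (x : ℕ → k) : End k V :=
  (T.reg.bas T.vec).constr k fun j : Fin (r + 1) => x j • (N ^ (j : ℕ)) v

theorem di_apply (T : Triple N H f r v) (x : ℕ → k) (j : ℕ) :
    di T x ((N ^ j) v) = x j • (N ^ j) v := by
  by_cases hj : j < r + 1
  · have h1 := (T.reg.bas T.vec).constr_basis k
      (fun j : Fin (r + 1) => x j • (N ^ (j : ℕ)) v) ⟨j, hj⟩
    rw [T.reg.bas_apply] at h1
    exact h1
  · rw [T.reg.pow_zero_of_lt (show r < j by omega), LinearMap.zero_apply, map_zero, smul_zero]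

theorem pow_succ_apply (N : End k V) (v : V) (j : ℕ) : N ((N ^ j) v) = (N ^ (j + 1)) v := by
  rw [pow_succ', Module.End.mul_apply]

theorem up_apply (T : Triple N H f r v) (x : ℕ → k) (j : ℕ) :
    (N * di T x) ((N ^ j) v) = x j • (N ^ (j + 1)) v := by
  rw [Module.End.mul_apply, di_apply, map_smul, pow_succ_apply]

theorem dn_apply (T : Triple N H f r v) (x : ℕ → k) (j : ℕ) :
    (di T x * f) ((N ^ (j + 1)) v) = (Fc r ((j : k) + 1) * x j) • (N ^ j) v := by
  rw [Module.End.mul_apply, T.low, map_smul, di_apply, smul_smul]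

theorem dn_zero (T : Triple N H f r v) (x : ℕ → k) : (di T x * f) v = 0 := by
  rw [Module.End.mul_apply, T.low0, map_zero]

theorem Fc_ne {r j : ℕ} (hj : j < r) : Fc (k := k) r ((j : k) + 1) ≠ 0 := by
  unfold Fc
  have h1 : ((j : k) + 1) ≠ 0 := by exact_mod_cast Nat.succ_ne_zero j
  have h2 : ((r : k) + 1 - ((j : k) + 1)) ≠ 0 := by
    obtain ⟨i, rfl⟩ := Nat.exists_eq_add_of_lt hj
    have h3 : (((j + i + 1 : ℕ) : k) + 1 - ((j : k) + 1)) = ((i + 1 : ℕ) : k) := by
      push_cast
      ring
    rw [h3]
    exact_mod_cast Nat.succ_ne_zero i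
  exact div_ne_zero (mul_ne_zero h1 h2) two_ne_zero

/-- the sum of two characteristic functions -/
def sg (r c j : ℕ) : k := (if j = c then 1 else 0) + (if j + c + 1 = r then 1 else 0)

section gen

variable (L : Submodule k (End k V)) (hbr : ∀ X ∈ L, ∀ Y ∈ L, X * Y - Y * X ∈ L)
  (hsk : ∀ X ∈ L, ∀ x y, B (X x) y = - B x (X y))
  (hss : s * s = 1) (T : Triple N H f r v)
  (hup : ∀ c, c < r → N * di T (sg r c) ∈ L) (hdn : ∀ c, c < r → di T (sg r c) * f ∈ L)
  (hfL : f ∈ L)

include hbr hsk hss hup in
theorem WW_up (h1 : ∀ a b, a ≤ r → b ≤ r → a + b = r + 1 → WW B s ((N ^ a) v) ((N ^ b) v) ∈ L) :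
    ∀ d a b, a ≤ r → b ≤ r → a + b = r + 1 + d → WW B s ((N ^ a) v) ((N ^ b) v) ∈ L := by
  intro d
  induction d with
  | zero => exact fun a b ha hb hab => h1 a b ha hb hab
  | succ d ih =>
    have key : ∀ a b, a ≤ r → b ≤ r → a + b = r + 1 + (d + 1) → b ≤ a →
        WW B s ((N ^ a) v) ((N ^ b) v) ∈ L := by
      intro a b ha hb hab hba
      obtain ⟨c, rfl⟩ : ∃ c, b = c + 1 := ⟨b - 1, by omega⟩
      have h2 := ih a c ha (by omega) (by omega)
      have h3 := hbr _ (hup c (by omega)) _ h2
      rw [WW_bracket (hsk _ (hup c (by omega))), up_apply, up_apply] at h3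
      have h4 : sg (k := k) r c a = 0 := by
        unfold sg
        rw [if_neg (by omega), if_neg (by omega), add_zero]
      rw [h4, zero_smul, WW_zero_left, zero_add, WW_smul_right] at h3
      have h5 : sg (k := k) r c c ≠ 0 := by
        unfold sg
        rw [if_pos rfl]
        split_ifs
        · norm_num
        · norm_num
      have h6 := Submodule.smul_mem L (sg (k := k) r c c)⁻¹ h3
      rwa [smul_smul, inv_mul_cancel₀ h5, one_smul] at h6
    intro a b ha hb hab
    rcases le_total b a with h | h
    · exact key a b ha hb hab h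
    · rw [WW_swap hss]
      exact Submodule.smul_mem _ _ (key b a hb ha (by omega) h)

include hbr hsk hss hdn in
theorem WW_dn (h1 : ∀ a b, a + b + 1 = r → WW B s ((N ^ a) v) ((N ^ b) v) ∈ L) :
    ∀ d a b, a + b + 1 + d = r → WW B s ((N ^ a) v) ((N ^ b) v) ∈ L := by
  intro d
  induction d with
  | zero => exact fun a b hab => h1 a b hab
  | succ d ih =>
    have key : ∀ a b, a + b + 1 + (d + 1) = r → a ≤ b → WW B s ((N ^ a) v) ((N ^ b) v) ∈ L := by
      intro a b hab hba
      have h2 := ih a (b + 1) (by omega)
      have h3 := hbr _ (hdn b (by omega)) _ h2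
      have hb0 : (di T (sg r b) * f) ((N ^ a) v) = 0 := by
        rcases Nat.eq_zero_or_pos a with ha | ha
        · rw [ha, pow_zero, Module.End.one_apply]
          exact dn_zero T _
        · obtain ⟨c, rfl⟩ : ∃ c, a = c + 1 := ⟨a - 1, by omega⟩
          rw [dn_apply]
          have h4 : sg (k := k) r b c = 0 := by
            unfold sg
            rw [if_neg (by omega), if_neg (by omega), add_zero]
          rw [h4, mul_zero, zero_smul]
      rw [WW_bracket (hsk _ (hdn b (by omega))), hb0, WW_zero_left, zero_add, dn_apply,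
        WW_smul_right] at h3
      have h5 : sg (k := k) r b b ≠ 0 := by
        unfold sg
        rw [if_pos rfl]
        split_ifs
        · norm_num
        · norm_num
      have h7 : Fc r ((b : k) + 1) * sg (k := k) r b b ≠ 0 := mul_ne_zero (Fc_ne (by omega)) h5
      have h6 := Submodule.smul_mem L (Fc r ((b : k) + 1) * sg (k := k) r b b)⁻¹ h3
      rwa [smul_smul, inv_mul_cancel₀ h7, one_smul] at h6
    intro a b hab
    rcases le_total a b with h | h
    · exact key a b hab h
    · rw [WW_swap hss]
      exact Submodule.smul_mem _ _ (key b a (by omega) h)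

include hbr hsk hss T hfL in
theorem WW_mid (hsr : s = (-1) ^ r)
    (h1 : ∀ a b, a ≤ r → b ≤ r → a + b = r + 1 → WW B s ((N ^ a) v) ((N ^ b) v) ∈ L) :
    ∀ a b, a + b = r → WW B s ((N ^ a) v) ((N ^ b) v) ∈ L := by
  have hstep : ∀ a b, a + b + 1 = r →
      WW B s ((N ^ a) v) ((N ^ (b + 1)) v) + WW B s ((N ^ (a + 1)) v) ((N ^ b) v) ∈ L := by
    intro a b hab
    have h2 := hbr _ hfL _ (h1 (a + 1) (b + 1) (by omega) (by omega) (by omega))
    rw [WW_bracket (hsk _ hfL), T.low, T.low, WW_smul_left, WW_smul_right] at h2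
    have h3 : Fc (k := k) r ((b : k) + 1) = Fc r ((a : k) + 1) := by
      rw [← hab]
      unfold Fc
      push_cast
      ring
    rw [h3, ← smul_add] at h2
    have h4 := Submodule.smul_mem L (Fc (k := k) r ((a : k) + 1))⁻¹ h2
    rwa [smul_smul, inv_mul_cancel₀ (Fc_ne (by omega)), one_smul] at h4
  have hall : ∀ a b, a + b = r → WW B s ((N ^ a) v) ((N ^ b) v) -
      ((-1 : k) ^ a) • WW B s ((N ^ 0) v) ((N ^ r) v) ∈ L := by
    intro a
    induction a with
    | zero =>
      intro b hb
      rw [zero_add] at hb
      rw [hb, pow_zero (-1 : k), one_smul, sub_self]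
      exact L.zero_mem
    | succ a ih =>
      intro b hb
      have h2 := ih (b + 1) (by omega)
      have h3 := hstep a b (by omega)
      have h4 := L.sub_mem h3 h2
      have h5 : WW B s ((N ^ (a + 1)) v) ((N ^ b) v) -
          ((-1 : k) ^ (a + 1)) • WW B s ((N ^ 0) v) ((N ^ r) v) =
          WW B s ((N ^ a) v) ((N ^ (b + 1)) v) + WW B s ((N ^ (a + 1)) v) ((N ^ b) v) -
          (WW B s ((N ^ a) v) ((N ^ (b + 1)) v) -
            ((-1 : k) ^ a) • WW B s ((N ^ 0) v) ((N ^ r) v)) := by
        rw [pow_succ (-1 : k), mul_neg, mul_one, neg_smul]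
        abel
      rw [h5]
      exact h4
  have h0 : WW B s ((N ^ 0) v) ((N ^ r) v) ∈ L := by
    have h2 := hall r 0 (by omega)
    have hss' : s ≠ 0 := by
      intro h
      rw [h, mul_zero] at hss
      exact zero_ne_one hss
    rw [WW_swap hss, ← hsr, ← sub_smul] at h2
    have h3 : -s - s ≠ 0 := by
      intro h
      apply hss'
      have : (2 : k) * s = 0 := by linear_combination -h
      exact (mul_eq_zero.1 this).resolve_left two_ne_zero
    have h4 := Submodule.smul_mem L (-s - s)⁻¹ h2
    rwa [smul_smul, inv_mul_cancel₀ h3, one_smul] at h4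
  intro a b hab
  have h2 := L.add_mem (hall a b hab) (L.smul_mem ((-1 : k) ^ a) h0)
  rwa [sub_add_cancel] at h2

include hbr hsk hss hup hdn hfL in
/-- All the operators `WW` are in `L`. -/
theorem WW_all (hsr : s = (-1) ^ r) (hBo : ∀ a b, a ≤ r → b ≤ r → a + b ≠ r →
      B ((N ^ a) v) ((N ^ b) v) = 0) (b0 : k)
    (hB : ∀ a b, a + b = r → B ((N ^ a) v) ((N ^ b) v) = (-1) ^ a * b0) (u u' : V) :
    WW B s u u' ∈ L := by
  -- the operators of degree `1`
  have h1 : ∀ a b, a ≤ r → b ≤ r → a + b = r + 1 → WW B s ((N ^ a) v) ((N ^ b) v) ∈ L := by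
    intro a b ha hb hab
    have h2 : WW B s ((N ^ a) v) ((N ^ b) v) = ((-1) ^ b * b0) • (N * di T (sg r (r - b))) := by
      refine T.reg.ext' T.vec fun j => ?_
      rw [WW_apply, LinearMap.smul_apply, up_apply]
      by_cases hj : j ≤ r
      · have e1 : B ((N ^ b) v) ((N ^ j) v) • (N ^ a) v =
            (((-1) ^ b * b0) * (if j = r - b then 1 else 0)) • (N ^ (j + 1)) v := by
          by_cases hbj : b + j = r
          · rw [hB b j hbj, if_pos (by omega), mul_one, show a = j + 1 by omega]
          · rw [hBo b j hb hj hbj, if_neg (by omega), mul_zero, zero_smul, zero_smul]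
        have e2 : (s * B ((N ^ a) v) ((N ^ j) v)) • (N ^ b) v =
            -(((-1) ^ b * b0) * (if j + (r - b) + 1 = r then 1 else 0)) • (N ^ (j + 1)) v := by
          by_cases haj : a + j = r
          · rw [hB a j haj, if_pos (by omega), mul_one, show b = j + 1 by omega]
            congr 1
            have h3 : s * (-1) ^ a = (-1) ^ (j + 1 + 1) * (s * s) := by
              have h4 : (-1 : k) ^ a = (-1) ^ j * (-1) ^ r := by
                rw [← pow_add, ← haj, show j + (a + j) = a + 2 * j by ring, pow_add, pow_mul]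
                norm_num
              rw [h4, ← hsr, pow_add, pow_add]
              ring
            rw [← mul_assoc, h3, hss]
            ring
          · rw [hBo a j ha hj haj, if_neg (by omega), mul_zero, mul_zero, zero_smul, neg_zero,
              zero_smul]
        rw [e1, e2, ← sub_smul, smul_smul]
        congr 1
        unfold sg
        ring
      · rw [T.reg.pow_zero_of_lt (show r < j by omega), T.reg.pow_zero_of_lt (show r < j + 1 by omega)]
        simp
    rw [h2]
    exact L.smul_mem _ (hup _ (by omega))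
  have h1' : ∀ a b, a + b + 1 = r → WW B s ((N ^ a) v) ((N ^ b) v) ∈ L := by
    intro a b hab
    have h2 : WW B s ((N ^ a) v) ((N ^ b) v) =
        ((-1) ^ b * b0 * (Fc r ((a : k) + 1))⁻¹) • (di T (sg r a) * f) := by
      refine T.reg.ext' T.vec fun j => ?_
      rw [WW_apply, LinearMap.smul_apply]
      rcases Nat.eq_zero_or_pos j with hj0 | hj0
      · rw [hj0, hBo b 0 (by omega) (by omega) (by omega), hBo a 0 (by omega) (by omega) (by omega),
          pow_zero, Module.End.one_apply, dn_zero, zero_smul, mul_zero, zero_smul, smul_zero, sub_zero]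
      obtain ⟨i, rfl⟩ : ∃ i, j = i + 1 := ⟨j - 1, by omega⟩
      rw [dn_apply]
      by_cases hj : i + 1 ≤ r
      · have e1 : B ((N ^ b) v) ((N ^ (i + 1)) v) • (N ^ a) v =
            (((-1) ^ b * b0) * (if i = a then 1 else 0)) • (N ^ i) v := by
          by_cases hbj : b + (i + 1) = r
          · rw [hB b (i + 1) hbj, if_pos (by omega), mul_one, show a = i by omega]
          · rw [hBo b (i + 1) (by omega) hj hbj, if_neg (by omega), mul_zero, zero_smul, zero_smul]
        have e2 : (s * B ((N ^ a) v) ((N ^ (i + 1)) v)) • (N ^ b) v =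
            -(((-1) ^ b * b0) * (if i + a + 1 = r then 1 else 0)) • (N ^ i) v := by
          by_cases haj : a + (i + 1) = r
          · rw [hB a (i + 1) haj, if_pos (by omega), mul_one, show b = i by omega]
            congr 1
            have h3 : s * (-1) ^ a = (-1) ^ (i + 1) * (s * s) := by
              have h4 : (-1 : k) ^ a = (-1) ^ (i + 1) * (-1) ^ r := by
                rw [← pow_add, ← haj, show i + 1 + (a + (i + 1)) = a + 2 * (i + 1) by ring, pow_add,
                  pow_mul]
                norm_num
              rw [h4, ← hsr]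
              ring
            rw [← mul_assoc, h3, hss]
            ring
          · rw [hBo a (i + 1) (by omega) hj haj, if_neg (by omega), mul_zero, mul_zero, zero_smul,
              neg_zero, zero_smul]
        rw [e1, e2, ← sub_smul, smul_smul]
        -- the coefficient of `f`
        by_cases hz : sg (k := k) r a i = 0
        · rw [hz, mul_zero, mul_zero]
          congr 1
          unfold sg at hz
          linear_combination ((-1) ^ b * b0) * hz
        · have hF : Fc (k := k) r ((i : k) + 1) = Fc r ((a : k) + 1) := by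
            have h5 : i = a ∨ i + a + 1 = r := by
              by_contra hcon
              push Not at hcon
              apply hz
              unfold sg
              rw [if_neg hcon.1, if_neg hcon.2, add_zero]
            rcases h5 with h5 | h5
            · rw [h5]
            · rw [← h5]
              unfold Fc
              push_cast
              ring
          rw [hF]
          congr 1
          have h6 : (Fc (k := k) r ((a : k) + 1))⁻¹ * Fc r ((a : k) + 1) = 1 :=
            inv_mul_cancel₀ (Fc_ne (by omega))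
          rw [mul_assoc ((-1) ^ b * b0) _ (_ * _), ← mul_assoc (Fc (k := k) r ((a : k) + 1))⁻¹, h6]
          unfold sg
          ring
      · rw [T.reg.pow_zero_of_lt (show r < i + 1 by omega)]
        by_cases hi : i = r
        · have h7 : sg (k := k) r a i = 0 := by
            unfold sg
            rw [if_neg (by omega), if_neg (by omega), add_zero]
          rw [h7]
          simp
        · rw [T.reg.pow_zero_of_lt (show r < i by omega)]
          simp
    rw [h2]
    exact L.smul_mem _ (hdn _ (by omega))
  have hall : ∀ a b, a ≤ r → b ≤ r → WW B s ((N ^ a) v) ((N ^ b) v) ∈ L := by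
    intro a b ha hb
    rcases lt_trichotomy (a + b) r with h | h | h
    · exact WW_dn L hbr hsk hss T hdn h1' (r - (a + b + 1)) a b (by omega)
    · exact WW_mid L hbr hsk hss T hfL hsr h1 a b h
    · exact WW_up L hbr hsk hss T hup h1 (a + b - (r + 1)) a b ha hb (by omega)
  -- bilinearity
  have hr : ∀ a, a ≤ r → ∀ u', WW B s ((N ^ a) v) u' ∈ L := by
    intro a ha u'
    obtain ⟨c, rfl⟩ := T.reg.exists_coeff T.vec u'
    have h2 : ∀ t : Finset ℕ, (∀ i ∈ t, i ≤ r) →
        WW B s ((N ^ a) v) (∑ i ∈ t, c i • (N ^ i) v) ∈ L := by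
      intro t
      induction t using Finset.induction_on with
      | empty =>
        intro _
        rw [Finset.sum_empty, WW_zero_right]
        exact L.zero_mem
      | insert i t hi ih =>
        intro ht
        rw [Finset.sum_insert hi, WW_add_right, WW_smul_right]
        exact L.add_mem (L.smul_mem _ (hall a i ha (ht i (Finset.mem_insert_self _ _))))
          (ih fun j hj => ht j (Finset.mem_insert_of_mem hj))
    exact h2 _ fun i hi => by
      rw [Finset.mem_range] at hi
      omega
  obtain ⟨c, rfl⟩ := T.reg.exists_coeff T.vec u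
  have h2 : ∀ t : Finset ℕ, (∀ i ∈ t, i ≤ r) → WW B s (∑ i ∈ t, c i • (N ^ i) v) u' ∈ L := by
    intro t
    induction t using Finset.induction_on with
    | empty =>
      intro _
      rw [Finset.sum_empty, WW_zero_left]
      exact L.zero_mem
    | insert i t hi ih =>
      intro ht
      rw [Finset.sum_insert hi, WW_add_left, WW_smul_left]
      exact L.add_mem (L.smul_mem _ (hr i (ht i (Finset.mem_insert_self _ _)) u'))
        (ih fun j hj => ht j (Finset.mem_insert_of_mem hj))
  exact h2 _ fun i hi => by
    rw [Finset.mem_range] at hi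
    omega

end gen

end Pool.Agent.D0H90.MJ
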