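import Pool.Agent.D0H90.MJ.Defs

/-!
# Hodge numbers in arithmetic progression
-/

set_option autoImplicit false

namespace Pool.Agent.D0H90.MJ

open Polynomial

variable {K : Type*} [Field K]

open Classical in
theorem count_prog (n : ℕ) (g : ℕ → K) (x : K) :
    (∏ j ∈ Finset.range n, (X - C (g j))).roots.count x =
      ((Finset.range n).filter fun j => x = g j).card := by
  have h1 : (∏ j ∈ Finset.range n, (X - C (g j))).roots = (Finset.range n).val.map g := by
    have h2 : ∏ j ∈ Finset.range n, (X - C (g j)) =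
        (((Finset.range n).val.map g).map fun a => X - C a).prod := by
      rw [Multiset.map_map]
      rfl
    rw [h2, roots_multiset_prod_X_sub_C]
  rw [h1, Multiset.count_map]
  rfl

open Classical in
theorem count_hodge (w : ℕ) (h : ℕ → ℕ) (x : K) :
    (∏ q ∈ Finset.range (w + 1), (X - C (q : K)) ^ h q).roots.count x =
      ∑ q ∈ Finset.range (w + 1), h q * (if x = (q : K) then 1 else 0) := by
  rw [roots_prod _ _ (Finset.prod_ne_zero_iff.2 fun q _ => pow_ne_zero _ (X_sub_C_ne_zero _)),
    Multiset.count_bind]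
  change ∑ q ∈ Finset.range (w + 1), _ = _
  refine Finset.sum_congr rfl fun q _ => ?_
  rw [roots_pow, roots_X_sub_C, Multiset.count_nsmul, Multiset.count_singleton]

theorem progression_of [CharZero K] {a d : K} {n w : ℕ} {h : ℕ → ℕ} (hn : 0 < n)
    (hP : ∏ j ∈ Finset.range n, (X - C (a + (j : K) * d)) =
      ∏ q ∈ Finset.range (w + 1), (X - C (q : K)) ^ h q) : IsProgression h w n := by
  classical
  have h1 : ∀ x : K, ((Finset.range n).filter fun j : ℕ => x = a + (j : K) * d).card =
      ∑ q ∈ Finset.range (w + 1), h q * (if x = (q : K) then 1 else 0) := by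
    intro x
    rw [← count_prog n (fun j => a + (j : K) * d) x, ← count_hodge w h x, hP]
  have h2 : ∀ q ≤ w, h q = ((Finset.range n).filter fun j : ℕ => (q : K) = a + (j : K) * d).card := by
    intro q hq
    rw [h1, Finset.sum_eq_single q]
    · rw [if_pos rfl, mul_one]
    · intro q' _ hne
      rw [if_neg (fun h => hne (Nat.cast_injective h).symm), mul_zero]
    · intro h
      exact absurd (Finset.mem_range.2 (by omega)) h
  have key : ∀ j, j < n → ∃ q : ℕ, a + (j : K) * d = q := by
    intro j hj
    by_contra hcon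
    push Not at hcon
    have h3 := h1 (a + (j : K) * d)
    rw [Finset.sum_eq_zero] at h3
    · rw [Finset.card_eq_zero, Finset.filter_eq_empty_iff] at h3
      exact h3 (Finset.mem_range.2 hj) rfl
    · intro q _
      rw [if_neg (hcon q), mul_zero]
  obtain ⟨q0, hq0⟩ := key 0 hn
  rw [Nat.cast_zero, zero_mul, add_zero] at hq0
  by_cases hn1 : n = 1
  · subst hn1
    refine ⟨q0, 0, fun q hq => ?_⟩
    rw [h2 q hq]
    congr 1
    refine Finset.filter_congr fun j hj => ?_
    rw [Finset.mem_range, Nat.lt_one_iff] at hj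
    rw [hj, Nat.cast_zero, zero_mul, add_zero, zero_mul, add_zero, hq0, Nat.cast_inj, eq_comm]
  obtain ⟨q1, hq1⟩ := key 1 (by omega)
  rw [Nat.cast_one, one_mul] at hq1
  rcases le_or_gt q0 q1 with hle | hlt
  · refine ⟨q0, q1 - q0, fun q hq => ?_⟩
    rw [h2 q hq]
    congr 1
    refine Finset.filter_congr fun j _ => ?_
    have h3 : a + (j : K) * d = ((q0 + j * (q1 - q0) : ℕ) : K) := by
      rw [Nat.cast_add, Nat.cast_mul, Nat.cast_sub hle, ← hq0, ← hq1]
      ring
    rw [h3, Nat.cast_inj, eq_comm]
  · obtain ⟨q', hq'⟩ := key (n - 1) (by omega)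
    refine ⟨q', q0 - q1, fun q hq => ?_⟩
    rw [h2 q hq]
    have h3 : ∀ j, j < n → a + (j : K) * d = ((q' + (n - 1 - j) * (q0 - q1) : ℕ) : K) := by
      intro j hj
      rw [Nat.cast_add, Nat.cast_mul, Nat.cast_sub hlt.le, Nat.cast_sub (by omega : j ≤ n - 1), ← hq0,
        ← hq1, ← hq']
      ring
    refine Finset.card_nbij' (fun j => n - 1 - j) (fun j => n - 1 - j) ?_ ?_ ?_ ?_
    · intro j hj
      rw [Finset.mem_coe, Finset.mem_filter, Finset.mem_range] at hj ⊢
      beta_reduce
      refine ⟨by omega, ?_⟩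
      have h4 := hj.2
      rw [h3 j hj.1, Nat.cast_inj] at h4
      exact h4.symm
    · intro j hj
      rw [Finset.mem_coe, Finset.mem_filter, Finset.mem_range] at hj ⊢
      beta_reduce
      refine ⟨by omega, ?_⟩
      rw [h3 _ (by omega), Nat.cast_inj, ← hj.2]
      congr 2
      omega
    · intro j hj
      rw [Finset.mem_coe, Finset.mem_filter, Finset.mem_range] at hj
      beta_reduce
      omega
    · intro j hj
      rw [Finset.mem_coe, Finset.mem_filter, Finset.mem_range] at hj
      beta_reduce
      omega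

end Pool.Agent.D0H90.MJ
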