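import Pool.Agent.D0H90.MJ.Sen
import Pool.Agent.D0H90.MJ.Prog

/-!
# Base change of a principal triple
-/

set_option autoImplicit false
set_option linter.unusedSectionVars false

namespace Pool.Agent.D0H90.MJ

open Module Polynomial Pool.Agent.Y114.MU

variable {k : Type*} [Field k] {K : Type*} [Field K] [Algebra k K] {n : ℕ}

/-- base change of endomorphisms -/
noncomputable def bc (K : Type*) [Field K] [Algebra k K] (X : End k (Fin n → k)) :
    End K (Fin n → K) :=
  Matrix.toLin' ((LinearMap.toMatrix' X).map (algebraMap k K))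

/-- base change of vectors -/
def bv (K : Type*) [Field K] [Algebra k K] (x : Fin n → k) : Fin n → K := fun i => algebraMap k K (x i)

theorem bc_apply (X : End k (Fin n → k)) (x : Fin n → k) : bc K X (bv K x) = bv K (X x) := by
  funext i
  unfold bc bv
  rw [Matrix.toLin'_apply]
  have h1 : X x = (LinearMap.toMatrix' X).mulVec x := by rw [LinearMap.toMatrix'_mulVec]
  rw [h1]
  exact ((algebraMap k K).map_mulVec (LinearMap.toMatrix' X) x i).symm

theorem bc_mul (X Y : End k (Fin n → k)) : bc K (X * Y) = bc K X * bc K Y := by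
  unfold bc
  rw [LinearMap.toMatrix'_mul, Matrix.map_mul, Matrix.toLin'_mul]
  rfl

theorem bc_one : bc K (1 : End k (Fin n → k)) = 1 := by
  unfold bc
  rw [LinearMap.toMatrix'_one, Matrix.map_one _ (map_zero _) (map_one _), Matrix.toLin'_one]
  rfl

theorem bc_pow (X : End k (Fin n → k)) (m : ℕ) : bc K (X ^ m) = bc K X ^ m := by
  induction m with
  | zero => rw [pow_zero, pow_zero, bc_one]
  | succ m ih => rw [pow_succ, pow_succ, bc_mul, ih]

theorem bv_smul (c : k) (x : Fin n → k) : bv K (c • x) = algebraMap k K c • bv K x := by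
  funext i
  simp [bv]

theorem bv_zero : bv K (0 : Fin n → k) = 0 := by
  funext i
  simp [bv]

theorem bv_inj {x : Fin n → k} (h : bv K x = 0) : x = 0 := by
  funext i
  exact (map_eq_zero (algebraMap k K)).1 (congrFun h i)

theorem bc_pow_apply (X : End k (Fin n → k)) (m : ℕ) (x : Fin n → k) :
    (bc K X ^ m) (bv K x) = bv K ((X ^ m) x) := by
  rw [← bc_pow, bc_apply]

variable [CharZero k] [CharZero K]

theorem Reg.base {N : End k (Fin n → k)} {r : ℕ} (h : Reg N r) : Reg (bc K N) r := by
  refine ⟨?_, ⟨r + 1, ?_⟩, ?_⟩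
  · have := h.dim
    rw [Module.finrank_fin_fun] at this ⊢
    exact this
  · rw [← bc_pow, h.pow_dim]
    unfold bc
    rw [map_zero, Matrix.map_zero _ (map_zero _), map_zero]
  · obtain ⟨v, hv⟩ := h.exists_vec
    intro h0
    apply hv
    apply bv_inj (K := K)
    rw [← bc_pow_apply, h0, LinearMap.zero_apply]

theorem Triple.base {N H f : End k (Fin n → k)} {r : ℕ} {v : Fin n → k} (T : Triple N H f r v) :
    Triple (bc K N) (bc K H) (bc K f) r (bv K v) where
  reg := Reg.base T.reg
  vec := by
    rw [bc_pow_apply]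
    exact fun h => T.vec (bv_inj h)
  wt := by
    intro j
    rw [bc_pow_apply, bc_apply, T.wt, bv_smul]
    congr 1
    rw [map_sub, map_div₀, map_natCast, map_natCast, map_ofNat]
  low0 := by rw [bc_apply, T.low0, bv_zero]
  low := by
    intro j
    rw [bc_pow_apply, bc_pow_apply, bc_apply, T.low, bv_smul]
    congr 1
    unfold Fc
    rw [map_div₀, map_mul, map_sub, map_add, map_add, map_natCast, map_natCast, map_one, map_ofNat]

/-- **Operators over `K` which normalize the span of the triple.** -/
theorem hodge_progression [IsAlgClosed K] {N H f : End k (Fin n → k)} {r : ℕ} {v : Fin n → k}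
    (T : Triple N H f r v) (hr : 0 < r) {Θ : Matrix (Fin n) (Fin n) K} {w : ℕ} {h : ℕ → ℕ}
    (hΘ : Θ.charpoly = ∏ q ∈ Finset.range (w + 1), (X - C (q : K)) ^ h q)
    (W : Submodule k (Matrix (Fin n) (Fin n) k))
    (hW : ∀ M ∈ W, ∃ a b c : k, Matrix.toLin' M = a • N + b • H + c • f)
    (hNW : LinearMap.toMatrix' N ∈ W) (hHW : LinearMap.toMatrix' H ∈ W)
    (hfW : LinearMap.toMatrix' f ∈ W)
    (hst : ∀ M ∈ W, Θ * M.map (algebraMap k K) - M.map (algebraMap k K) * Θ ∈
      Submodule.span K ((fun Y : Matrix (Fin n) (Fin n) k => Y.map (algebraMap k K)) '' W)) :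
    IsProgression h w n := by
  have hn : n = r + 1 := by
    have := T.reg.dim
    rwa [Module.finrank_fin_fun] at this
  have hbc : ∀ M : Matrix (Fin n) (Fin n) k,
      Matrix.toLin' (M.map (algebraMap k K)) = bc K (Matrix.toLin' M) := by
    intro M
    unfold bc
    rw [LinearMap.toMatrix'_toLin']
  have hadd : ∀ X Y : End k (Fin n → k), bc K (X + Y) = bc K X + bc K Y := by
    intro X Y
    unfold bc
    rw [map_add, Matrix.map_add _ (map_add _), map_add]
  have hsmul : ∀ (a : k) (X : End k (Fin n → k)), bc K (a • X) = algebraMap k K a • bc K X := by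
    intro a X
    have h1 : ∀ M : Matrix (Fin n) (Fin n) k, (a • M).map (algebraMap k K) =
        algebraMap k K a • M.map (algebraMap k K) := by
      intro M
      ext i j
      rw [Matrix.map_apply, Matrix.smul_apply, Matrix.smul_apply, Matrix.map_apply, smul_eq_mul,
        smul_eq_mul, map_mul]
    unfold bc
    rw [LinearEquiv.map_smul, h1, LinearEquiv.map_smul]
  have hspan : ∀ M ∈ Submodule.span K
      ((fun Y : Matrix (Fin n) (Fin n) k => Y.map (algebraMap k K)) '' W),
      ∃ a b c : K, Matrix.toLin' M = a • bc K N + b • bc K H + c • bc K f := by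
    intro M hM
    induction hM using Submodule.span_induction with
    | mem M hM =>
      obtain ⟨Y, hY, rfl⟩ := hM
      obtain ⟨a, b, c, h1⟩ := hW Y hY
      refine ⟨algebraMap k K a, algebraMap k K b, algebraMap k K c, ?_⟩
      change Matrix.toLin' (Y.map (algebraMap k K)) = _
      rw [hbc, h1, hadd, hadd, hsmul, hsmul, hsmul]
    | zero => exact ⟨0, 0, 0, by simp⟩
    | add M M' _ _ ih ih' =>
      obtain ⟨a, b, c, h1⟩ := ih
      obtain ⟨a', b', c', h1'⟩ := ih'
      refine ⟨a + a', b + b', c + c', ?_⟩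
      rw [map_add, h1, h1', add_smul, add_smul, add_smul]
      abel
    | smul x M _ ih =>
      obtain ⟨a, b, c, h1⟩ := ih
      refine ⟨x * a, x * b, x * c, ?_⟩
      rw [map_smul, h1, smul_add, smul_add, smul_smul, smul_smul, smul_smul]
  have hcom : ∀ X : End k (Fin n → k), LinearMap.toMatrix' X ∈ W →
      ∃ a b c : K, Matrix.toLin' Θ * bc K X - bc K X * Matrix.toLin' Θ =
        a • bc K N + b • bc K H + c • bc K f := by
    intro X hX
    obtain ⟨a, b, c, h1⟩ := hspan _ (hst _ hX)
    refine ⟨a, b, c, ?_⟩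
    rw [← h1, map_sub, Matrix.toLin'_mul, Matrix.toLin'_mul, hbc, Matrix.toLin'_toMatrix']
    rfl
  obtain ⟨a, d, h1⟩ := charpoly_progression (Triple.base T) hr (hcom N hNW) (hcom H hHW) (hcom f hfW)
  refine progression_of (a := a) (d := d) (by omega) ?_
  have h2 : Finset.range n = Finset.range (r + 1) := by rw [hn]
  rw [← hΘ, h2, ← h1]
  exact Matrix.charpoly_toLin' Θ

end Pool.Agent.D0H90.MJ
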