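import Mathlib

/-!
# Partitions of `1, ..., n - 1` which are compatible with the numbers `j (n - j)`
-/

set_option autoImplicit false

namespace Pool.Agent.D0H90.MJ

/-- the numbers `j (n - j)` -/
def mm (n : ℕ) (j : ℕ) : ℤ := (j : ℤ) * ((n : ℤ) - j)

open Classical in
/-- the characteristic function of the class of `a` -/
noncomputable def ch (n : ℕ) (R : ℕ → ℕ → Prop) (a j : ℕ) : ℤ :=
  if 1 ≤ j ∧ j < n ∧ R a j then 1 else 0

/-- the function `2 m b - (m b) shifted in both directions` -/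
noncomputable def ph (n : ℕ) (R : ℕ → ℕ → Prop) (a j : ℕ) : ℤ :=
  2 * (mm n j * ch n R a j) - mm n (j - 1) * ch n R a (j - 1) - mm n (j + 1) * ch n R a (j + 1)

/-- An equivalence relation on `1, ..., n - 1` with `j ~ n - j`, compatible with the numbers `j (n - j)`. -/
structure Compat (n : ℕ) (R : ℕ → ℕ → Prop) : Prop where
  refl : ∀ j, 1 ≤ j → j < n → R j j
  symm : ∀ i j, 1 ≤ i → i < n → 1 ≤ j → j < n → R i j → R j i
  trans : ∀ i j l, 1 ≤ i → i < n → 1 ≤ j → j < n → 1 ≤ l → l < n → R i j → R j l → R i l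
  rev : ∀ j, 1 ≤ j → j < n → R j (n - j)
  const : ∀ a i j, 1 ≤ a → a < n → 1 ≤ i → i < n → 1 ≤ j → j < n → R i j →
    ph n R a i = ph n R a j

variable {n : ℕ} {R : ℕ → ℕ → Prop}

theorem ch_pos {a j : ℕ} (h : 1 ≤ j ∧ j < n ∧ R a j) : ch n R a j = 1 := if_pos h

theorem ch_neg {a j : ℕ} (h : ¬ (1 ≤ j ∧ j < n ∧ R a j)) : ch n R a j = 0 := if_neg h

theorem mm_pos {j : ℕ} (h1 : 1 ≤ j) (h2 : j < n) : 0 < mm n j := by
  unfold mm
  have : (1 : ℤ) ≤ j := by exact_mod_cast h1
  have : (j : ℤ) < n := by exact_mod_cast h2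
  positivity

theorem mm_second {j : ℕ} (h1 : 1 ≤ j) : 2 * mm n j - mm n (j - 1) - mm n (j + 1) = 2 := by
  obtain ⟨i, rfl⟩ := Nat.exists_eq_add_of_le h1
  unfold mm
  rw [show 1 + i - 1 = i by omega]
  push_cast
  ring

theorem mm_zero : mm n 0 = 0 := by simp [mm]

theorem mm_top : mm n n = 0 := by simp [mm]

namespace Compat

variable (h : Compat n R)

include h

theorem all_of_two (h2 : 2 < n) (hR : R 1 2) : ∀ j, 1 ≤ j → j < n → R 1 j := by
  have h1n : 1 < n := by omega
  intro j hj1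
  induction j, hj1 using Nat.le_induction with
  | base => exact fun _ => h.refl 1 le_rfl h1n
  | succ j hj ih =>
    intro hjn
    have hj' := ih (by omega)
    have h3 := h.const 1 1 j le_rfl h1n le_rfl h1n hj (by omega) hj'
    have h4 : ph n R 1 1 = 2 := by
      unfold ph
      rw [ch_pos ⟨le_rfl, h1n, h.refl 1 le_rfl h1n⟩, ch_pos (j := 1 + 1) ⟨by omega, h2, hR⟩,
        Nat.sub_self, mm_zero]
      have := mm_second (n := n) (j := 1) le_rfl
      rw [Nat.sub_self, mm_zero] at this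
      linarith
    rw [h4] at h3
    unfold ph at h3
    rw [ch_pos (j := j) ⟨hj, by omega, hj'⟩] at h3
    by_contra hcon
    rw [ch_neg (j := j + 1) (fun h => hcon h.2.2)] at h3
    have h5 := mm_second (n := n) hj
    have h6 := mm_pos (n := n) (j := j + 1) (by omega) hjn
    by_cases h7 : 1 ≤ j - 1 ∧ j - 1 < n ∧ R 1 (j - 1)
    · rw [ch_pos h7] at h3
      linarith
    · rw [ch_neg h7] at h3
      have h8 : 0 ≤ mm n (j - 1) := by
        rcases Nat.eq_zero_or_pos (j - 1) with h9 | h9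
        · rw [h9, mm_zero]
        · exact (mm_pos h9 (by omega)).le
      linarith

theorem cases_one (h4 : 4 ≤ n) (hR : ¬ R 1 2) {j : ℕ} (hj1 : 1 ≤ j) (hjn : j < n) (hj : R 1 j) :
    j = 1 ∨ j = n - 1 ∨ (j + 3 = n ∧ R 1 (j - 1)) ∨ (j = 3 ∧ R 1 4) := by
  have h1n : 1 < n := by omega
  have h3 := h.const 1 1 j le_rfl h1n le_rfl h1n hj1 hjn hj
  have e1 : ph n R 1 1 = 2 * (n - 1) := by
    unfold ph
    rw [ch_pos ⟨le_rfl, h1n, h.refl 1 le_rfl h1n⟩, ch_neg (j := 1 + 1) (fun h => hR h.2.2),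
      Nat.sub_self, mm_zero]
    unfold mm
    push_cast
    ring
  rw [e1] at h3
  unfold ph at h3
  rw [ch_pos (j := j) ⟨hj1, hjn, hj⟩] at h3
  have e2 := mm_second (n := n) hj1
  by_cases hj0 : j = 1
  · exact Or.inl hj0
  by_cases hjn' : j = n - 1
  · exact Or.inr (Or.inl hjn')
  have hA : ch n R 1 (j - 1) = 0 ∨ (ch n R 1 (j - 1) = 1 ∧ R 1 (j - 1)) := by
    by_cases h7 : 1 ≤ j - 1 ∧ j - 1 < n ∧ R 1 (j - 1)
    · exact Or.inr ⟨ch_pos h7, h7.2.2⟩
    · exact Or.inl (ch_neg h7)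
  have hB : ch n R 1 (j + 1) = 0 ∨ (ch n R 1 (j + 1) = 1 ∧ R 1 (j + 1)) := by
    by_cases h7 : 1 ≤ j + 1 ∧ j + 1 < n ∧ R 1 (j + 1)
    · exact Or.inr ⟨ch_pos h7, h7.2.2⟩
    · exact Or.inl (ch_neg h7)
  have j2 : (2 : ℤ) ≤ j := by
    have : 2 ≤ j := by omega
    exact_mod_cast this
  have jn : (j : ℤ) + 2 ≤ n := by
    have : j + 2 ≤ n := by omega
    exact_mod_cast this
  have hn4 : (4 : ℤ) ≤ n := by exact_mod_cast h4
  rcases hA with hA | ⟨hA, hA'⟩ <;> rcases hB with hB | ⟨hB, hB'⟩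
  · exfalso
    rw [hA, hB] at h3
    unfold mm at h3
    have h5 : ((j : ℤ) - 1) * ((n : ℤ) - 1 - j) = 0 := by nlinarith
    rcases mul_eq_zero.1 h5 with h6 | h6 <;> omega
  · right; right; right
    rw [hA, hB] at h3
    have h5 : ((n : ℤ) - 1 - j) * ((j : ℤ) - 3) = 0 := by
      have h7 : mm n (j - 1) = 2 * (n - 1) - 2 := by linarith
      have h8 : ((j - 1 : ℕ) : ℤ) = (j : ℤ) - 1 := by
        rw [Nat.cast_sub hj1]; rfl
      unfold mm at h7
      rw [h8] at h7
      linarith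
    have h6 : (j : ℤ) = 3 := by
      rcases mul_eq_zero.1 h5 with h6 | h6 <;> omega
    have h7 : j = 3 := by exact_mod_cast h6
    subst h7
    exact ⟨rfl, hB'⟩
  · right; right; left
    rw [hA, hB] at h3
    have h5 : ((j : ℤ) - 1) * ((n : ℤ) - j - 3) = 0 := by
      have h7 : mm n (j + 1) = 2 * (n - 1) - 2 := by linarith
      unfold mm at h7
      push_cast at h7
      linarith
    rcases mul_eq_zero.1 h5 with h6 | h6
    · omega
    · exact ⟨by omega, hA'⟩
  · exfalso
    rw [hA, hB] at h3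
    linarith

theorem one (h4 : 4 ≤ n) (h7 : n ≠ 7) (hR : ¬ R 1 2) {j : ℕ} (hj1 : 1 ≤ j) (hjn : j < n)
    (hj : R 1 j) : j = 1 ∨ j + 1 = n := by
  have h1n : 1 < n := by omega
  have hrev : ∀ i, 1 ≤ i → i < n → R 1 i → R 1 (n - i) := fun i h1 h2 h3 =>
    h.trans 1 i (n - i) le_rfl h1n h1 h2 (by omega) (by omega) h3 (h.rev i h1 h2)
  -- both `3` and `4` would be in the class
  have key : R 1 3 → R 1 4 → 4 < n → 3 < n → False := by
    intro h3 h4' h4n h3n
    rcases h.cases_one h4 hR (j := 4) (by omega) h4n h4' with h5 | h5 | ⟨h5, -⟩ | ⟨h5, -⟩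
    · omega
    · -- `n = 5`
      have h6 : n = 5 := by omega
      subst h6
      exact hR (hrev 3 (by omega) (by omega) h3)
    · omega
    · omega
  rcases h.cases_one h4 hR hj1 hjn hj with h5 | h5 | ⟨h5, h6⟩ | ⟨h5, h6⟩
  · exact Or.inl h5
  · exact Or.inr (by omega)
  · by_cases hj' : j = 1
    · exact Or.inl hj'
    exfalso
    have h8 := hrev j hj1 hjn hj
    have h9 : n - j = 3 := by omega
    rw [h9] at h8
    have h10 := hrev (j - 1) (by omega) (by omega) h6
    have h11 : n - (j - 1) = 4 := by omega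
    rw [h11] at h10
    exact key h8 h10 (by omega) (by omega)
  · by_cases hj' : j + 1 = n
    · exact Or.inr hj'
    exfalso
    subst h5
    exact key hj h6 (by omega) (by omega)

theorem small (h4 : 4 ≤ n) (h7 : n ≠ 7) (hR : ¬ R 1 2) : ∀ a : ℕ, 1 ≤ a → 2 * a ≤ n →
    ∀ j, 1 ≤ j → j < n → R a j → j = a ∨ j + a = n := by
  intro a
  induction a using Nat.strong_induction_on with
  | _ a ih =>
    intro ha1 ha2 j hj1 hjn hj
    rcases eq_or_lt_of_le ha1 with ha | ha
    · subst ha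
      exact h.one h4 h7 hR hj1 hjn hj
    have han : a < n := by omega
    have hb1 : 1 ≤ a - 1 := by omega
    have hbn : a - 1 < n := by omega
    have hb := ih (a - 1) (by omega) hb1 (by omega)
    -- the characteristic function of the class of `a - 1`
    have hch : ∀ i, 1 ≤ i → i < n → (R (a - 1) i ↔ (i = a - 1 ∨ i + (a - 1) = n)) := by
      intro i hi1 hin
      constructor
      · exact hb i hi1 hin
      · rintro (rfl | hi)
        · exact h.refl _ hb1 hbn
        · have := h.rev (a - 1) hb1 hbn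
          rwa [show n - (a - 1) = i by omega] at this
    have h3 := h.const (a - 1) a j hb1 hbn ha1 han hj1 hjn hj
    have hna : ¬ R (a - 1) a := by
      rw [hch a ha1 han]
      omega
    have hnj : ¬ R (a - 1) j := by
      intro h5
      exact hna (h.trans _ j _ hb1 hbn hj1 hjn ha1 han h5 (h.symm _ _ ha1 han hj1 hjn hj))
    have e1 : ph n R (a - 1) a < 0 := by
      unfold ph
      rw [ch_neg (j := a) (fun h => hna h.2.2), ch_pos (j := a - 1) ⟨hb1, hbn, h.refl _ hb1 hbn⟩]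
      have h5 := mm_pos hb1 hbn
      have h6 : 0 ≤ mm n (a + 1) * ch n R (a - 1) (a + 1) := by
        by_cases h7 : 1 ≤ a + 1 ∧ a + 1 < n ∧ R (a - 1) (a + 1)
        · rw [ch_pos h7, mul_one]
          exact (mm_pos h7.1 h7.2.1).le
        · rw [ch_neg h7, mul_zero]
      linarith
    rw [h3] at e1
    unfold ph at e1
    rw [ch_neg (j := j) (fun h => hnj h.2.2)] at e1
    have h5 : (1 ≤ j - 1 ∧ j - 1 < n ∧ R (a - 1) (j - 1)) ∨
        (1 ≤ j + 1 ∧ j + 1 < n ∧ R (a - 1) (j + 1)) := by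
      by_contra hcon
      push Not at hcon
      rw [ch_neg (j := j - 1) (fun h => hcon.1 h.1 h.2.1 h.2.2),
        ch_neg (j := j + 1) (fun h => hcon.2 h.1 h.2.1 h.2.2)] at e1
      simp at e1
    have key : ∀ i, 1 ≤ i → i < n → R a i → i + 2 = a → False := by
      intro i hi1 hin hi h6
      rcases ih i (by omega) hi1 (by omega) a ha1 han (h.symm _ _ ha1 han hi1 hin hi) with h7 | h7
      · omega
      · omega
    rcases h5 with ⟨h5, h6, h8⟩ | ⟨h5, h6, h8⟩
    · rcases (hch _ h5 h6).1 h8 with h9 | h9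
      · left; omega
      · exfalso
        have h10 := h.trans _ j (n - j) ha1 han hj1 hjn (by omega) (by omega) hj (h.rev j hj1 hjn)
        exact key (n - j) (by omega) (by omega) h10 (by omega)
    · rcases (hch _ h5 h6).1 h8 with h9 | h9
      · exfalso
        exact key j hj1 hjn hj (by omega)
      · right; omega

/-- **The classification.** -/
theorem classify (h7 : n ≠ 7) : (4 ≤ n ∧ ∀ j, 1 ≤ j → j < n → R 1 j) ∨
    ∀ i j, 1 ≤ i → i < n → 1 ≤ j → j < n → (R i j ↔ (j = i ∨ j + i = n)) := by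
  have hback : ∀ i j, 1 ≤ i → i < n → 1 ≤ j → j < n → (j = i ∨ j + i = n) → R i j := by
    rintro i j hi1 hin hj1 hjn (rfl | h5)
    · exact h.refl _ hi1 hin
    · have := h.rev i hi1 hin
      rwa [show n - i = j by omega] at this
  by_cases h4 : 4 ≤ n
  · by_cases hR : R 1 2
    · exact Or.inl ⟨h4, h.all_of_two (by omega) hR⟩
    · right
      intro i j hi1 hin hj1 hjn
      refine ⟨fun hij => ?_, hback i j hi1 hin hj1 hjn⟩
      by_cases h2 : 2 * i ≤ n
      · exact h.small h4 h7 hR i hi1 h2 j hj1 hjn hij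
      · have h3 : R (n - i) j := h.trans _ i _ (by omega) (by omega) hi1 hin hj1 hjn
          (h.symm _ _ hi1 hin (by omega) (by omega) (h.rev i hi1 hin)) hij
        rcases h.small h4 h7 hR (n - i) (by omega) (by omega) j hj1 hjn h3 with h5 | h5
        · right; omega
        · left; omega
  · right
    intro i j hi1 hin hj1 hjn
    refine ⟨fun hij => ?_, hback i j hi1 hin hj1 hjn⟩
    omega

end Compat

end Pool.Agent.D0H90.MJ
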