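import Pool.Agent.R390.SF.HnDef

/-!
# Monodromy operators, Sen operators and semi-invariant forms: definitions
-/

set_option autoImplicit false

namespace Pool.Agent.D0H90.MJ

open Module Polynomial Matrix Pool.Agent.R390.SF Pool.Agent.Y800

/-- The Hodge numbers `h 0, ..., h w` are those of an arithmetic progression of `n` terms: `h q` is the
number of the terms `a + j d`, `0 ≤ j < n`, which are equal to `q` (the numbers `q` with their
multiplicities `h q` form an arithmetic progression). -/
def IsProgression (h : ℕ → ℕ) (w n : ℕ) : Prop :=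
  ∃ a d : ℕ, ∀ q ≤ w, h q = ((Finset.range n).filter fun j => a + j * d = q).card

/-- The endomorphisms `φ` (the action of a Frobenius element with `q` elements) and `N` (the monodromy
operator) of `V` are as in the weight-monodromy conjecture for the weight `w`: the space
`V` is the direct sum of the spaces `V i = ker (Q i)(φ)`, `0 ≤ i ≤ 2 w`, where the roots of the monic
polynomial `Q i` with integral coefficients have the absolute value `q ^ (i / 2)`; `N` maps `V i` to
`V (i - 2)`, and `N ^ j` is injective on `V (w + j)`. -/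
structure WeightMonodromy {k V : Type*} [Field k] [AddCommGroup V] [Module k V] (w q : ℕ)
    (φ N : Module.End k V) (Q : ℕ → ℤ[X]) : Prop where
  monic : ∀ i, (Q i).Monic
  weight : ∀ i, ∀ z : ℂ, z ∈ (Q i).aroots ℂ → ‖z‖ ^ 2 = (q : ℝ) ^ i
  total : aeval φ (∏ i ∈ Finset.range (2 * w + 1), Q i) = 0
  lower : ∀ i x, aeval φ (Q (i + 2)) x = 0 → aeval φ (Q i) (N x) = 0
  low : ∀ i < 2, ∀ x, aeval φ (Q i) x = 0 → N x = 0
  injective : ∀ j, 1 ≤ j → ∀ x, aeval φ (Q (w + j)) x = 0 → (N ^ j) x = 0 → x = 0

variable {F : SubFld ℚ} {ℓ w : ℕ} [hℓ : Fact ℓ.Prime] {h : ℕ → ℕ} {k : Type}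
  [NormedField k] [NormedAlgebra ℚ_[ℓ] k] {Γ : Type} [Group Γ] {n : ℕ}

/-- the matrix `N` is in the algebra generated by the inertia group at `P` -/
def InertiaSpan (A : MotivicRep F ℓ w h k Γ n) (P : Ideal ZBar)
    (N : Matrix (Fin n) (Fin n) k) : Prop :=
  N ∈ Algebra.adjoin k {x : Matrix (Fin n) (Fin n) k |
    ∃ τ : F.fixingSubgroup, InInertia P τ ∧ x = A.ρ (A.θ τ)}

/-- The matrix `N` is the monodromy operator of the representation `A` at the maximal ideal `P` of
`ZBar` above the prime number `p`, and the weight-monodromy conjecture holds. (For example `N = 0` and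
`A` has good reduction at `P`.) -/
structure WeightMonodromyAt (A : MotivicRep F ℓ w h k Γ n) (p : ℕ) (P : Ideal ZBar)
    (N : Matrix (Fin n) (Fin n) k) : Prop where
  mem : InertiaSpan A P N
  skew : N.transpose * A.J = -(A.J * N)
  graded : ∀ f : ℕ, 0 < f → ∀ σ : F.fixingSubgroup, IsGeomFrob (p ^ f) P σ →
    ∃ Q : ℕ → ℤ[X], WeightMonodromy w (p ^ f)
      (Matrix.toLin' (A.ρ (A.θ σ) : Matrix (Fin n) (Fin n) k)) (Matrix.toLin' N) Q

/-- The matrix `N` is the monodromy operator of the representation `A` at the maximal ideal `P` of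
`ZBar` above the prime number `p`, and it has one Jordan block: `N` is a linear combination of the
images of the elements of the inertia group, it is antisymmetric for the polarization, the commutation
rule with the geometric Frobenius elements `σ` at `P` holds, `N ^ n = 0` and `N ^ (n - 1) ≠ 0` (here
`n` is the dimension, and `n ≤ w + 1` because `N ^ (w + 1) = 0`). -/
structure OneBlockAt (A : MotivicRep F ℓ w h k Γ n) (p : ℕ) (P : Ideal ZBar)
    (N : Matrix (Fin n) (Fin n) k) : Prop where
  mem : InertiaSpan A P N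
  skew : N.transpose * A.J = -(A.J * N)
  frob : ∀ f : ℕ, 0 < f → ∀ σ : F.fixingSubgroup, IsGeomFrob (p ^ f) P σ →
    N * (A.ρ (A.θ σ)).1 = ((p ^ f : ℕ) : k) • ((A.ρ (A.θ σ)).1 * N)
  nilpotent : N ^ n = 0
  block : N ^ (n - 1) ≠ 0
  size : n ≤ w + 1

/-- The multilinear form `φ` on `V = k ^ n`, with the finite set `S` of variables, is semi-invariant
under a subgroup of finite index of `Γ`. For example, `φ` is a Tate class in `(V^∨)^{⊗ S} (j)`. -/
def SemiInvariant (A : MotivicRep F ℓ w h k Γ n) {S : Type}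
    (φ : MultilinearMap k (fun _ : S => Fin n → k) k) : Prop :=
  ∃ Δ : Subgroup Γ, Δ.FiniteIndex ∧ ∃ c : Γ → k, ∀ g ∈ Δ, ∀ v : S → Fin n → k,
    φ (fun j => (A.ρ g : Matrix (Fin n) (Fin n) k) *ᵥ v j) = c g * φ v

/-- The form `φ` is a linear combination of products of the polarization (the bilinear form with the
matrix `J`) on pairs of variables. -/
def FromPolarization (A : MotivicRep F ℓ w h k Γ n) {S : Type}
    (φ : MultilinearMap k (fun _ : S => Fin n → k) k) : Prop :=
  (fun v => φ v) ∈ Submodule.span k {E : (S → Fin n → k) → k |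
    ∃ (m : ℕ) (e : Fin m × Fin 2 ≃ S), E = fun v => ∏ l, v (e (l, 0)) ⬝ᵥ A.J *ᵥ v (e (l, 1))}

/-- The matrix `Θ` over the algebraically closed extension `K` of `k` has the properties of the Sen
operator (up to sign) of the representation at a place above `ℓ`: its eigenvalues are the Hodge-Tate
weights, the numbers `q` with the multiplicities `h q`, and it respects the Galois-stable subspaces of
the space of endomorphisms. -/
structure IsSen (A : MotivicRep F ℓ w h k Γ n) (K : Type) [Field K] [Algebra k K]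
    (Θ : Matrix (Fin n) (Fin n) K) : Prop where
  charpoly : Θ.charpoly = ∏ q ∈ Finset.range (w + 1), (X - C (q : K)) ^ h q
  stable : ∀ W : Submodule k (Matrix (Fin n) (Fin n) k),
    (∀ g : F.fixingSubgroup, ∀ M ∈ W, (A.ρ (A.θ g) : Matrix (Fin n) (Fin n) k) * M *
      ((A.ρ (A.θ g))⁻¹ : GL (Fin n) k) ∈ W) → ∀ M ∈ W,
    Θ * M.map (algebraMap k K) - M.map (algebraMap k K) * Θ ∈
      Submodule.span K ((fun Y : Matrix (Fin n) (Fin n) k => Y.map (algebraMap k K)) '' W)

/-- There is a Sen operator. -/
def HasSen (A : MotivicRep F ℓ w h k Γ n) : Prop :=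
  ∃ (K : Type) (_ : Field K) (_ : Algebra k K) (_ : IsAlgClosed K) (Θ : Matrix (Fin n) (Fin n) K),
    IsSen A K Θ

/-- Some element of `Γ` acts as a unipotent matrix different from `1` which has more than one Jordan
block. -/
def HasSmallUnipotent (A : MotivicRep F ℓ w h k Γ n) : Prop :=
  ∃ γ : Γ, (A.ρ γ : Matrix (Fin n) (Fin n) k) ≠ 1 ∧
    ((A.ρ γ : Matrix (Fin n) (Fin n) k) - 1) ^ (n - 1) = 0

/-- The characteristic polynomial of some element of `Γ` (for example of a Frobenius element) has rational
coefficients, and three of its (complex) roots are multiplicatively independent. -/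
def HasThreeIndependent (A : MotivicRep F ℓ w h k Γ n) : Prop :=
  ∃ (γ : Γ) (P : ℚ[X]), (A.ρ γ : Matrix (Fin n) (Fin n) k).charpoly =
    P.map ((algebraMap ℚ_[ℓ] k).comp (algebraMap ℚ ℚ_[ℓ])) ∧
      ∃ z : Fin 3 → ℂ, (∀ i, aeval (z i) P = 0) ∧ ∀ e : Fin 3 → ℤ, ∏ i, z i ^ e i = 1 → e = 0

end Pool.Agent.D0H90.MJ
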