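import Pool.Agent.D0H90.MJ.Alg
import Pool.Agent.Y127.FftS
import Pool.Agent.H204R3.SP.Lie

/-!
# The first fundamental theorem for a form with a principal triple
-/

set_option autoImplicit false
set_option linter.unusedSectionVars false

namespace Pool.Agent.D0H90.MJ

open Module Pool.Agent.Y114.MU Pool.Agent.TH125.Nod Pool.Agent.Y127 Pool.Agent.H204R3.SP
  Pool.Agent.H204R3.CM

variable {k : Type*} [Field k] {V : Type*} [AddCommGroup V] [Module k V]

section pf

variable {S : Type} [Fintype S] [DecidableEq S]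

/-- the product of the form on pairs of variables -/
noncomputable def pf (B : V →ₗ[k] V →ₗ[k] k) {m : ℕ} (e : Fin m × Fin 2 ≃ S) :
    MultilinearMap k (fun _ : S => V) k :=
  (prodMap (fun _ : Fin m => bil2 B)).domDomCongr e

theorem pf_apply (B : V →ₗ[k] V →ₗ[k] k) {m : ℕ} (e : Fin m × Fin 2 ≃ S) (v : S → V) :
    pf B e v = ∏ l, B (v (e (l, 0))) (v (e (l, 1))) := rfl

/-- the span of the products -/
noncomputable def PF (B : V →ₗ[k] V →ₗ[k] k) (S : Type) [Fintype S] [DecidableEq S] :
    Submodule k (MultilinearMap k (fun _ : S => V) k) :=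
  Submodule.span k {ψ | ∃ (m : ℕ) (e : Fin m × Fin 2 ≃ S), ψ = pf B e}

variable {J : Type} [Fintype J] [DecidableEq J]

/-- the coordinates -/
noncomputable def crd (b : Basis J k V) (S : Type) [Fintype S] [DecidableEq S] :
    MultilinearMap k (fun _ : S => V) k →ₗ[k] ((S → J) → k) where
  toFun φ x := φ fun j => b (x j)
  map_add' _ _ := rfl
  map_smul' _ _ := rfl

theorem crd_inj (b : Basis J k V) {φ ψ : MultilinearMap k (fun _ : S => V) k}
    (h : crd b S φ = crd b S ψ) : φ = ψ :=
  Basis.ext_multilinear (fun _ => b) fun x => congrFun h x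

theorem mem_PF_of_Gen (B : V →ₗ[k] V →ₗ[k] k) (b : Basis J k V)
    {φ : MultilinearMap k (fun _ : S => V) k}
    (h : crd b S φ ∈ Gen (K := k) (M := k) (fun _ : J => ()) (fun a c => B (b a) (b c))
      (fun _ : S => ())) : φ ∈ PF B S := by
  have h1 : Gen (K := k) (M := k) (fun _ : J => ()) (fun a c => B (b a) (b c))
      (fun _ : S => ()) ≤ (PF B S).map (crd b S) := by
    unfold Gen
    rw [Submodule.span_le]
    rintro _ ⟨m, e, w, rfl⟩
    refine ⟨w • pf B e, Submodule.smul_mem _ _ (Submodule.subset_span ⟨m, e, rfl⟩), ?_⟩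
    funext x
    unfold gen
    rw [if_pos (fun _ => rfl), map_smul, Pi.smul_apply, smul_eq_mul, smul_eq_mul, mul_comm]
    rfl
  obtain ⟨ψ, hψ, hψφ⟩ := h1 h
  rwa [← crd_inj b hψφ]

theorem inv_of_kills [CharZero k] [FiniteDimensional k V] {B : V →ₗ[k] V →ₗ[k] k} {s : k} (b : Basis J k V)
    {φ : MultilinearMap k (fun _ : S => V) k} (h : ∀ u u' : V, Kills (WW B s u u') φ) :
    Inv (fun _ : J => ()) (fun a c => B (b a) (b c)) (fun _ => s) (crd b S φ) := by
  intro u u' _ x
  have h1 := h (b u) (b u') (fun j => b (x j))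
  rw [← h1]
  refine Finset.sum_congr rfl fun j _ => ?_
  have h2 : ∀ p : J, Function.update (fun i => b (x i)) j (b p) =
      fun i => b (Function.update x j p i) := by
    intro p
    funext i
    by_cases hi : i = j
    · subst hi
      rw [Function.update_self, Function.update_self]
    · rw [Function.update_of_ne hi, Function.update_of_ne hi]
  rw [WW_apply, MultilinearMap.map_update_sub, MultilinearMap.map_update_smul,
    MultilinearMap.map_update_smul, h2, h2]
  rfl

end pf

variable [CharZero k] [FiniteDimensional k V] {N H f : End k V} {r : ℕ} {v : V}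
  {B : V →ₗ[k] V →ₗ[k] k} {s : k}

/-- **The first fundamental theorem.** -/
theorem fft_form (T : Triple N H f r v) (hsr : s = (-1) ^ r)
    (hBs : ∀ x y, B x y = s * B y x) (hBo : ∀ a b, a ≤ r → b ≤ r → a + b ≠ r →
      B ((N ^ a) v) ((N ^ b) v) = 0) (hnd : ∀ x, (∀ y, B x y = 0) → x = 0)
    {S : Type} [Fintype S] [DecidableEq S] (hS : Even (Fintype.card S))
    {φ : MultilinearMap k (fun _ : S => V) k} (hφ : ∀ u u' : V, Kills (WW B s u u') φ) :
    φ ∈ PF B S := by
  classical
  set b := T.reg.bas T.vec with hb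
  set Q : Matrix (Fin (r + 1)) (Fin (r + 1)) k := fun a c => B (b a) (b c) with hQ
  have hQdet : Q.det ≠ 0 := by
    have h1 : Q = LinearMap.toMatrix₂ b b B := by
      ext a c
      rw [LinearMap.toMatrix₂_apply]
    rw [h1]
    intro h0
    obtain ⟨y, hy0, hy⟩ := Matrix.exists_mulVec_eq_zero_iff.2 h0
    have h2 : ∀ a, B (b a) (∑ c, y c • b c) = 0 := by
      intro a
      have h3 := congrFun hy a
      rw [Matrix.mulVec, dotProduct, Pi.zero_apply] at h3
      rw [map_sum, ← h3]
      refine Finset.sum_congr rfl fun c _ => ?_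
      rw [map_smul, LinearMap.toMatrix₂_apply, smul_eq_mul, mul_comm]
    have h3 : ∑ c, y c • b c = 0 := by
      refine hnd _ fun z => ?_
      have h5 : B.flip (∑ c, y c • b c) = 0 := b.ext fun a => h2 a
      have h6 := congrArg (fun F : V →ₗ[k] k => F z) h5
      rw [hBs]
      have h7 : B z (∑ c, y c • b c) = 0 := h6
      rw [h7, mul_zero]
    apply hy0
    have h4 := Fintype.linearIndependent_iff.1 b.linearIndependent y h3
    funext c
    exact h4 c
  have hQR : Q * Q⁻¹ = 1 := Matrix.mul_nonsing_inv _ (Ne.isUnit hQdet)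
  have hinv := inv_of_kills b hφ
  refine mem_PF_of_Gen B b ?_
  rcases Nat.even_or_odd r with hr | hr
  · have hs1 : s = 1 := by rw [hsr, hr.neg_one_pow]
    subst hs1
    obtain ⟨q, hq⟩ := hr
    let o : Fin (r + 1) := ⟨q, by omega⟩
    have hQs : ∀ a c, Q a c = Q c a := by
      intro a c
      rw [hQ]
      change B (b a) (b c) = B (b c) (b a)
      rw [hBs, one_mul]
    have ho : ∀ c, c ≠ o → Q o c = 0 := by
      intro c hc
      change B (b o) (b c) = 0
      rw [hb, T.reg.bas_apply T.vec, T.reg.bas_apply T.vec]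
      refine hBo _ _ (by omega) (by omega) ?_
      intro h
      apply hc
      apply Fin.ext
      change (c : ℕ) = q
      change q + (c : ℕ) = r at h
      omega
    refine fftO hQs hQR ho (Fintype.card S) S _ rfl hinv ?_
    intro x hx
    have hsim : Sim Q (-1) (1 : k) (-1) := by
      constructor
      · rw [Matrix.transpose_neg, Matrix.transpose_one, neg_mul, one_mul, mul_neg, mul_one, neg_neg,
          mul_one, one_smul]
      · rw [one_pow, mul_one, Matrix.det_neg, Matrix.det_one, mul_one, Fintype.card_fin, hq]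
        have : Odd (q + q + 1) := ⟨q, by ring⟩
        exact this.neg_one_pow
    have h1 := (semi hQs hQR ho hinv hsim x).2 hx
    have h2 : GA (-1 : Matrix (Fin (r + 1)) (Fin (r + 1)) k) (crd b S φ) x = crd b S φ x := by
      unfold GA
      rw [Finset.sum_eq_single x]
      · rw [Finset.prod_congr rfl (g := fun _ => (-1 : k))]
        · rw [Finset.prod_const, Finset.card_univ, hS.neg_one_pow, one_smul]
        · intro j _
          rw [Matrix.neg_apply, Matrix.one_apply_eq]
      · intro y _ hy
        obtain ⟨j, hj⟩ := Function.ne_iff.1 hy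
        rw [Finset.prod_eq_zero (Finset.mem_univ j), zero_smul]
        rw [Matrix.neg_apply, Matrix.one_apply_ne hj, neg_zero]
      · intro h
        exact absurd (Finset.mem_univ _) h
    rw [h2, one_pow, mul_one, neg_one_smul] at h1
    have h3 : (2 : k) * crd b S φ x = 0 := by linear_combination h1
    exact (mul_eq_zero.1 h3).resolve_left two_ne_zero
  · have hs1 : s = -1 := by rw [hsr, hr.neg_one_pow]
    subst hs1
    refine fft (K := k) (κ := fun _ : Fin (r + 1) => ()) (Q := Q) (R := Q⁻¹) (s := fun _ => -1)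
      (fun _ => Or.inr rfl) (fun a c h => absurd rfl h) ?_ hQR (Fintype.card S) S (fun _ => ()) _ rfl
      ?_ ?_ ?_
    · intro a c
      rw [Int.cast_neg, Int.cast_one]
      exact hBs _ _
    · intro x hx
      exact absurd (fun _ => rfl) hx
    · have h1 : (fun _ : Unit => (((-1 : ℤ)) : k)) = fun _ => -1 := by
        funext _
        rw [Int.cast_neg, Int.cast_one]
      change Inv (fun _ : Fin (r + 1) => ()) Q (fun _ => (((-1 : ℤ)) : k)) (crd b S φ)
      rw [h1]
      exact hinv
    · intro _ h
      norm_num at h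

end Pool.Agent.D0H90.MJ
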