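import Pool.Agent.D0H90.MJ.Alg
import Pool.Agent.D0H90.MJ.Comb
import Pool.Agent.Y114.MU.Cube

/-!
# The homogeneous elements of degree 1
-/

set_option autoImplicit false

namespace Pool.Agent.D0H90.MJ

open Module Pool.Agent.Y114.MU

variable {k : Type*} [Field k] [CharZero k] {V : Type*} [AddCommGroup V] [Module k V]
  [FiniteDimensional k V] {N H f : End k V} {r : ℕ} {v : V}

/-- extension by zero -/
def xt {k : Type*} [Zero k] {r : ℕ} (x : Fin r → k) (j : ℕ) : k := if h : j < r then x ⟨j, h⟩ else 0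

theorem xt_lt {k : Type*} [Zero k] {r : ℕ} (x : Fin r → k) {j : ℕ} (h : j < r) :
    xt x j = x ⟨j, h⟩ := dif_pos h

theorem xt_fin {k : Type*} [Zero k] {r : ℕ} (x : Fin r → k) (j : Fin r) : xt x j = x j :=
  xt_lt x j.2

theorem xt_ge {k : Type*} [Zero k] {r : ℕ} (x : Fin r → k) {j : ℕ} (h : ¬ j < r) : xt x j = 0 :=
  dif_neg h

theorem xt_add {r : ℕ} (x y : Fin r → k) (j : ℕ) : xt (x + y) j = xt x j + xt y j := by
  by_cases h : j < r
  · rw [xt_lt _ h, xt_lt _ h, xt_lt _ h, Pi.add_apply]
  · rw [xt_ge _ h, xt_ge _ h, xt_ge _ h, add_zero]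

theorem xt_smul {r : ℕ} (c : k) (y : Fin r → k) (j : ℕ) : xt (c • y) j = c * xt y j := by
  by_cases h : j < r
  · rw [xt_lt _ h, xt_lt _ h, Pi.smul_apply, smul_eq_mul]
  · rw [xt_ge _ h, xt_ge _ h, mul_zero]

/-- the diagonal of the bracket of `N D_x` and `f` -/
noncomputable def zz (r : ℕ) (x : ℕ → k) (j : ℕ) : k :=
  Fc r (j : k) * x (j - 1) - Fc r ((j : k) + 1) * x j

/-- the second difference -/
noncomputable def tt (r : ℕ) (x : ℕ → k) (j : ℕ) : k := zz r x (j + 1) - zz r x j

theorem bracket_f (T : Triple N H f r v) (x : ℕ → k) :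
    (N * di T x) * f - f * (N * di T x) = di T (zz r x) := by
  refine T.reg.ext' T.vec fun j => ?_
  rw [LinearMap.sub_apply, Module.End.mul_apply, Module.End.mul_apply f, up_apply, di_apply]
  rcases j with _ | j
  · rw [pow_zero, Module.End.one_apply, T.low0, map_zero, zero_sub, map_smul, T.low, smul_smul,
      pow_zero, Module.End.one_apply, ← neg_smul]
    congr 1
    unfold zz
    rw [Nat.cast_zero, Fc_zero]
    ring
  · rw [T.low, map_smul, map_smul, T.low, up_apply, smul_smul, smul_smul, ← sub_smul]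
    congr 1
    unfold zz
    rw [Nat.add_sub_cancel]
    push_cast
    ring

theorem di_bracket_up (T : Triple N H f r v) (x z : ℕ → k) :
    di T z * (N * di T x) - (N * di T x) * di T z =
      N * di T (fun j => (z (j + 1) - z j) * x j) := by
  refine T.reg.ext' T.vec fun j => ?_
  rw [LinearMap.sub_apply, Module.End.mul_apply, Module.End.mul_apply (N * di T x), up_apply,
    up_apply, di_apply, map_smul, map_smul, di_apply, up_apply, smul_smul, smul_smul, ← sub_smul]
  congr 1
  ring

theorem di_bracket_f (T : Triple N H f r v) (z : ℕ → k) :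
    di T z * f - f * di T z = di T (fun j => z j - z (j + 1)) * f := by
  refine T.reg.ext' T.vec fun j => ?_
  rw [LinearMap.sub_apply, Module.End.mul_apply f, di_apply, map_smul]
  rcases j with _ | j
  · rw [pow_zero, Module.End.one_apply, dn_zero, dn_zero, T.low0, smul_zero, sub_zero]
  · rw [dn_apply, dn_apply, T.low, smul_smul, ← sub_smul]
    congr 1
    ring

theorem up_congr (T : Triple N H f r v) {x x' : ℕ → k} (h : ∀ j, j < r → x j = x' j) :
    N * di T x = N * di T x' := by
  refine T.reg.ext' T.vec fun j => ?_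
  rw [up_apply, up_apply]
  by_cases hj : j < r
  · rw [h j hj]
  · rw [T.reg.pow_zero_of_lt (show r < j + 1 by omega), LinearMap.zero_apply, smul_zero, smul_zero]

theorem dn_congr (T : Triple N H f r v) {x x' : ℕ → k} (h : ∀ j, j < r → x j = x' j) :
    di T x * f = di T x' * f := by
  refine T.reg.ext' T.vec fun j => ?_
  rcases j with _ | j
  · rw [pow_zero, Module.End.one_apply, dn_zero, dn_zero]
  · by_cases hj : j < r
    · rw [dn_apply, dn_apply, h j hj]
    · rw [T.reg.pow_zero_of_lt (show r < j + 1 by omega), LinearMap.zero_apply, map_zero, map_zero]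

theorem di_add (T : Triple N H f r v) (x y : ℕ → k) : di T (x + y) = di T x + di T y := by
  refine T.reg.ext' T.vec fun j => ?_
  rw [LinearMap.add_apply, di_apply, di_apply, di_apply, Pi.add_apply, add_smul]

theorem di_smul (T : Triple N H f r v) (c : k) (y : ℕ → k) : di T (c • y) = c • di T y := by
  refine T.reg.ext' T.vec fun j => ?_
  rw [LinearMap.smul_apply, di_apply, di_apply, Pi.smul_apply, smul_eq_mul, mul_smul]

theorem di_one (T : Triple N H f r v) : di T (fun _ => (1 : k)) = 1 := by
  refine T.reg.ext' T.vec fun j => ?_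
  rw [di_apply, one_smul, Module.End.one_apply]

/-- the map `x ↦ N D_x` -/
noncomputable def upL (T : Triple N H f r v) : (Fin r → k) →ₗ[k] End k V where
  toFun x := N * di T (xt x)
  map_add' x y := by
    have h : (xt (x + y) : ℕ → k) = xt x + xt y := funext fun j => xt_add x y j
    rw [h, di_add, mul_add]
  map_smul' c y := by
    have h : (xt (c • y) : ℕ → k) = c • xt y := funext fun j => xt_smul c y j
    rw [h, di_smul, mul_smul_comm, RingHom.id_apply]

theorem upL_apply (T : Triple N H f r v) (x : Fin r → k) : upL T x = N * di T (xt x) := rfl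

variable (k r) in
/-- the second difference -/
noncomputable def TL : (Fin r → k) →ₗ[k] (Fin r → k) where
  toFun x j := tt r (xt x) j
  map_add' x y := by
    funext j
    rw [Pi.add_apply]
    unfold tt zz
    simp only [xt_add]
    ring
  map_smul' c y := by
    funext j
    rw [Pi.smul_apply, RingHom.id_apply, smul_eq_mul]
    unfold tt zz
    simp only [xt_smul]
    ring

theorem TL_apply (x : Fin r → k) (j : Fin r) : TL k r x j = tt r (xt x) j := rfl

theorem TL_inj (x : Fin r → k) (hx : TL k r x = 0) : x = 0 := by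
  have h1 : ∀ j, j ≤ r → zz r (xt x) j = zz r (xt x) 0 := by
    intro j
    induction j with
    | zero => exact fun _ => rfl
    | succ j ih =>
      intro hj
      have h2 := congrFun hx ⟨j, by omega⟩
      rw [TL_apply, Pi.zero_apply] at h2
      unfold tt at h2
      rw [← ih (by omega)]
      exact sub_eq_zero.1 h2
  set c := zz r (xt x) 0 with hc
  have h2 : ∀ j, j ≤ r + 1 → Fc r (j : k) * xt x (j - 1) = -(j : k) * c := by
    intro j
    induction j with
    | zero =>
      intro _
      rw [Nat.cast_zero, Fc_zero]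
      ring
    | succ j ih =>
      intro hj
      have h3 := h1 j (by omega)
      unfold zz at h3
      have h4 := ih (by omega)
      rw [Nat.add_sub_cancel]
      push_cast
      linear_combination h4 - h3
  have h3 : c = 0 := by
    have h4 := h2 (r + 1) le_rfl
    push_cast at h4
    rw [Fc_top, zero_mul] at h4
    have h5 : ((r : k) + 1) ≠ 0 := by exact_mod_cast Nat.succ_ne_zero r
    have h6 : ((r : k) + 1) * c = 0 := by linear_combination h4
    exact (mul_eq_zero.1 h6).resolve_left h5
  funext j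
  have h4 := h2 ((j : ℕ) + 1) (by omega)
  rw [h3, mul_zero, Nat.add_sub_cancel, xt_fin] at h4
  push_cast at h4
  exact (mul_eq_zero.1 h4).resolve_left (Fc_ne j.2)

section main

variable (L : Submodule k (End k V)) (hbr : ∀ X ∈ L, ∀ Y ∈ L, X * Y - Y * X ∈ L)
  (T : Triple N H f r v) (hN : N ∈ L) (hf : f ∈ L)

include hbr hN hf in
theorem TL_mem {x : Fin r → k} (hx : upL T x ∈ L) : upL T (TL k r x) ∈ L := by
  have h1 := hbr _ hx _ hf
  rw [upL_apply, bracket_f] at h1
  have h2 := hbr _ h1 _ hN
  have h3 : N * di T (fun _ => (1 : k)) = N := by rw [di_one, mul_one]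
  have h4 := di_bracket_up T (fun _ => (1 : k)) (zz r (xt x))
  rw [h3] at h4
  rw [upL_apply]
  rw [up_congr T (x := xt (TL k r x)) (x' := fun j => (zz r (xt x) (j + 1) - zz r (xt x) j) * 1)]
  · rw [← h4]
    exact h2
  · intro j hj
    rw [xt_lt _ hj, TL_apply, mul_one]
    rfl

include hbr hN hf in
theorem exists_z {x : Fin r → k} (hx : upL T x ∈ L) :
    ∃ z : ℕ → k, di T z ∈ L ∧ ∀ j, j < r → z (j + 1) - z j = xt x j := by
  let U : Submodule k (Fin r → k) := L.comap (upL T)
  let A : U →ₗ[k] U := (TL k r).restrict (p := U) (q := U) fun y hy => TL_mem L hbr T hN hf hy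
  have hA : Function.Injective A := by
    rw [injective_iff_map_eq_zero]
    rintro ⟨y, hy⟩ h0
    have h1 : TL k r y = 0 := congrArg Subtype.val h0
    exact Subtype.ext (TL_inj y h1)
  obtain ⟨⟨y, hy⟩, hyx⟩ := (LinearMap.injective_iff_surjective.1 hA) ⟨x, hx⟩
  have h1 : TL k r y = x := congrArg Subtype.val hyx
  refine ⟨zz r (xt y), ?_, ?_⟩
  · have h2 := hbr _ hy _ hf
    rwa [upL_apply, bracket_f] at h2
  · intro j hj
    rw [← h1, xt_lt _ hj]
    rfl

include hbr hN hf in
theorem U_mul {x y : Fin r → k} (hx : upL T x ∈ L) (hy : upL T y ∈ L) : upL T (x * y) ∈ L := by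
  obtain ⟨z, hz, hzx⟩ := exists_z L hbr T hN hf hx
  have h1 := hbr _ hz _ hy
  rw [upL_apply, di_bracket_up] at h1
  rw [upL_apply]
  rw [up_congr T (x := xt (x * y)) (x' := fun j => (z (j + 1) - z j) * xt y j)]
  · exact h1
  · intro j hj
    rw [hzx j hj, xt_lt _ hj, xt_lt _ hj, xt_lt _ hj, Pi.mul_apply]

include hbr hN hf in
theorem dn_mem {x : Fin r → k} (hx : upL T x ∈ L) : di T (xt x) * f ∈ L := by
  obtain ⟨z, hz, hzx⟩ := exists_z L hbr T hN hf hx
  have h1 := hbr _ hz _ hf
  rw [di_bracket_f] at h1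
  have h2 := L.smul_mem (-1 : k) h1
  rw [← smul_mul_assoc, ← di_smul] at h2
  rw [dn_congr T (x := xt x) (x' := (-1 : k) • fun j => z j - z (j + 1))]
  · exact h2
  · intro j hj
    rw [← hzx j hj, Pi.smul_apply, smul_eq_mul]
    ring

include hN in
theorem U_one : upL T (1 : Fin r → k) ∈ L := by
  have h3 : N = N * di T (fun _ => (1 : k)) := by rw [di_one, mul_one]
  rw [upL_apply, up_congr T (x' := fun _ => (1 : k)), ← h3]
  · exact hN
  · intro j hj
    rw [xt_lt _ hj, Pi.one_apply]

/-- the functions `x` with `N D_x` in `L` -/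
noncomputable def UA : Subalgebra k (Fin r → k) where
  carrier := {x | upL T x ∈ L}
  add_mem' := by
    intro x y hx hy
    rw [Set.mem_ofPred_eq, map_add]
    exact L.add_mem hx hy
  mul_mem' := fun hx hy => U_mul L hbr T hN hf hx hy
  algebraMap_mem' := by
    intro c
    rw [Set.mem_ofPred_eq, Algebra.algebraMap_eq_smul_one, map_smul]
    exact L.smul_mem c (U_one L T hN)

theorem mem_UA (x : Fin r → k) : x ∈ UA L hbr T hN hf ↔ upL T x ∈ L := Iff.rfl

open Classical in
/-- the characteristic function of a class -/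
noncomputable def ind (A : Subalgebra k (Fin r → k)) (a i : Fin r) : k :=
  if ∀ x ∈ A, x a = x i then 1 else 0

theorem ind_mem (A : Subalgebra k (Fin r → k)) (a : Fin r) : ind A a ∈ A := by
  classical
  let S : Finset (Fin r) := Finset.univ.filter fun i => ¬ ∀ x ∈ A, x a = x i
  have h1 : ∀ i ∈ S, ∃ y ∈ A, y a = 1 ∧ y i = 0 := by
    intro i hi
    obtain ⟨x, hx, hxi⟩ : ∃ x ∈ A, x a ≠ x i := by
      have := (Finset.mem_filter.1 hi).2
      push Not at this
      exact this
    have h2 : x a - x i ≠ 0 := sub_ne_zero.2 hxi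
    refine ⟨(x a - x i)⁻¹ • (x - algebraMap k (Fin r → k) (x i)),
      A.smul_mem (A.sub_mem hx (A.algebraMap_mem _)) _, ?_, ?_⟩
    · rw [Pi.smul_apply, Pi.sub_apply, Pi.algebraMap_apply, Algebra.algebraMap_self_apply, smul_eq_mul,
        inv_mul_cancel₀ h2]
    · rw [Pi.smul_apply, Pi.sub_apply, Pi.algebraMap_apply, Algebra.algebraMap_self_apply, smul_eq_mul,
        sub_self, mul_zero]
  choose! y hy1 hy2 hy3 using h1
  have h2 : ind A a = ∏ i ∈ S, y i := by
    funext j
    rw [Finset.prod_apply]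
    unfold ind
    by_cases hj : ∀ x ∈ A, x a = x j
    · rw [if_pos hj]
      symm
      refine Finset.prod_eq_one fun i hi => ?_
      rw [← hj _ (hy1 i hi), hy2 i hi]
    · rw [if_neg hj]
      symm
      exact Finset.prod_eq_zero (Finset.mem_filter.2 ⟨Finset.mem_univ j, hj⟩)
        (hy3 j (Finset.mem_filter.2 ⟨Finset.mem_univ j, hj⟩))
  rw [h2]
  exact A.prod_mem fun i hi => hy1 i hi

/-- the equivalence relation -/
def RR (A : Subalgebra k (Fin r → k)) (i j : ℕ) : Prop := ∀ x ∈ A, xt x (i - 1) = xt x (j - 1)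

theorem Fc_mm (j : ℕ) : 2 * Fc (k := k) r (j : k) = ((mm (r + 1) j : ℤ) : k) := by
  unfold Fc mm
  push_cast
  ring

theorem ch_ind (A : Subalgebra k (Fin r → k)) (a : ℕ) (ha1 : 1 ≤ a) (ha : a < r + 1) (j : ℕ)
    (hj : 1 ≤ j) : ((ch (r + 1) (RR A) a j : ℤ) : k) = xt (ind A ⟨a - 1, by omega⟩) (j - 1) := by
  by_cases hjr : j - 1 < r
  · rw [xt_lt _ hjr]
    unfold ind ch
    by_cases h : RR A a j
    · rw [if_pos ⟨hj, by omega, h⟩, if_pos]
      · norm_num
      · intro x hx
        have h1 := h x hx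
        rw [xt_lt _ (show a - 1 < r by omega), xt_lt _ hjr] at h1
        exact h1
    · rw [if_neg (fun h' => h h'.2.2), if_neg]
      · norm_num
      · intro h'
        apply h
        intro x hx
        rw [xt_lt _ (show a - 1 < r by omega), xt_lt _ hjr]
        exact h' x hx
  · rw [xt_ge _ hjr]
    unfold ch
    rw [if_neg (by omega)]
    norm_num

include hbr hN hf in
theorem compat (hsym : ∀ x : Fin r → k, upL T x ∈ L → ∀ j, j < r → xt x (r - 1 - j) = xt x j) :
    Compat (r + 1) (RR (UA L hbr T hN hf)) where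
  refl := fun j _ _ x _ => rfl
  symm := fun i j _ _ _ _ h x hx => (h x hx).symm
  trans := fun i j l _ _ _ _ _ _ h h' x hx => (h x hx).trans (h' x hx)
  rev := by
    intro j hj1 hj x hx
    have h1 := hsym x hx (j - 1) (by omega)
    rw [← h1]
    congr 1
    omega
  const := by
    intro a i j ha1 ha hi1 hi hj1 hj hij
    have h1 : TL k r (ind (UA L hbr T hN hf) ⟨a - 1, by omega⟩) ∈ UA L hbr T hN hf :=
      TL_mem L hbr T hN hf (ind_mem (UA L hbr T hN hf) ⟨a - 1, by omega⟩)
    have h2 := hij _ h1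
    have h3 : ∀ i, 1 ≤ i → i < r + 1 → ((ph (r + 1) (RR (UA L hbr T hN hf)) a i : ℤ) : k) =
        2 * xt (TL k r (ind (UA L hbr T hN hf) ⟨a - 1, by omega⟩)) (i - 1) := by
      intro i hi1 hi
      obtain ⟨l, rfl⟩ : ∃ l, i = l + 1 := ⟨i - 1, by omega⟩
      rw [xt_lt _ (show l + 1 - 1 < r by omega), TL_apply]
      unfold ph tt zz
      push_cast
      have e0 : ((mm (r + 1) l : ℤ) : k) *
          ((ch (r + 1) (RR (UA L hbr T hN hf)) a l : ℤ) : k) =
          2 * (Fc r (l : k) * xt (ind (UA L hbr T hN hf) ⟨a - 1, by omega⟩) (l - 1)) := by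
        rw [← Fc_mm]
        rcases Nat.eq_zero_or_pos l with hl | hl
        · rw [hl, Nat.cast_zero, Fc_zero]
          ring
        · rw [ch_ind _ a ha1 ha l hl]
          ring
      rw [e0, ← Fc_mm, ← Fc_mm, ch_ind _ a ha1 ha (l + 1) (by omega),
        ch_ind _ a ha1 ha (l + 1 + 1) (by omega)]
      simp only [Nat.add_sub_cancel]
      push_cast
      ring
    have h4 : ((ph (r + 1) (RR (UA L hbr T hN hf)) a i : ℤ) : k) =
        ((ph (r + 1) (RR (UA L hbr T hN hf)) a j : ℤ) : k) := by
      rw [h3 i hi1 hi, h3 j hj1 hj, h2]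
    exact_mod_cast h4

/-- If the degree `1` part is spanned by `N` there are no elements of higher degree. -/
theorem no_higher (hbr : ∀ X ∈ L, ∀ Y ∈ L, X * Y - Y * X ∈ L) (hf : f ∈ L) (hr : 0 < r)
    (hc : ∀ x : Fin r → k, upL T x ∈ L → ∀ i j, x i = x j) (m : ℕ) :
    ∀ (Z : End k V) (z : ℕ → k), Z ∈ L → (∀ j, Z ((N ^ j) v) = z j • (N ^ (j + (m + 2))) v) →
      Z = 0 := by
  -- the bracket with `f`
  have hbrf : ∀ (m : ℕ) (Z : End k V) (z : ℕ → k),
      (∀ j, Z ((N ^ j) v) = z j • (N ^ (j + (m + 1))) v) →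
      ∀ j, (f * Z - Z * f) ((N ^ j) v) =
        (z j * Fc r ((j : k) + m + 1) - Fc r (j : k) * z (j - 1)) • (N ^ (j + m)) v := by
    intro m Z z hz j
    rw [LinearMap.sub_apply, Module.End.mul_apply, Module.End.mul_apply, hz, map_smul, ← add_assoc,
      T.low, smul_smul]
    rcases j with _ | j
    · rw [pow_zero, Module.End.one_apply, T.low0, map_zero, sub_zero]
      congr 1
      push_cast
      rw [Fc_zero]
      ring
    · rw [T.low, map_smul, hz, smul_smul, show j + 1 + m = j + (m + 1) by ring, ← sub_smul]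
      congr 1
      rw [Nat.add_sub_cancel]
      push_cast
      ring
  have hzero : ∀ (m : ℕ) (Z : End k V) (z : ℕ → k),
      (∀ j, Z ((N ^ j) v) = z j • (N ^ (j + (m + 1))) v) → f * Z - Z * f = 0 → Z = 0 := by
    intro m Z z hz h0
    have h1 := hbrf m Z z hz
    have hb := T.reg.bas T.vec
    have hne : ∀ i, i ≤ r → (N ^ i) v ≠ 0 := by
      intro i hi h
      have h2 := T.reg.bas_apply T.vec ⟨i, by omega⟩
      exact (T.reg.bas T.vec).ne_zero ⟨i, by omega⟩ (h2.trans h)
    have h2 : ∀ j, j + m + 1 ≤ r → z j = 0 := by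
      intro j
      induction j with
      | zero =>
        intro hj
        have h3 := h1 0
        rw [h0, LinearMap.zero_apply] at h3
        have h4 := (smul_eq_zero.1 h3.symm).resolve_right (hne _ (by omega))
        rw [Nat.cast_zero, Fc_zero, zero_mul, sub_zero, zero_add] at h4
        exact (mul_eq_zero.1 h4).resolve_right (Fc_ne (by omega))
      | succ j ih =>
        intro hj
        have h3 := h1 (j + 1)
        rw [h0, LinearMap.zero_apply] at h3
        have h4 := (smul_eq_zero.1 h3.symm).resolve_right (hne _ (by omega))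
        rw [Nat.add_sub_cancel, ih (by omega), mul_zero, sub_zero, ← Nat.cast_add] at h4
        exact (mul_eq_zero.1 h4).resolve_right (Fc_ne (by omega))
    refine T.reg.ext' T.vec fun j => ?_
    rw [hz, LinearMap.zero_apply]
    by_cases hj : j + m + 1 ≤ r
    · rw [h2 j hj, zero_smul]
    · rw [T.reg.pow_zero_of_lt (show r < j + (m + 1) by omega), LinearMap.zero_apply, smul_zero]
  induction m with
  | zero =>
    intro Z z hZ hz
    refine hzero 1 Z z (fun j => hz j) ?_
    have h1 := hbrf 1 Z z (fun j => hz j)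
    set w : ℕ → k := fun j => z j * Fc r ((j : k) + (1 : ℕ) + 1) - Fc r (j : k) * z (j - 1) with hw
    have h2 : f * Z - Z * f = N * di T w := by
      refine T.reg.ext' T.vec fun j => ?_
      rw [h1, up_apply]
    have h3 : upL T (fun i : Fin r => w i) ∈ L := by
      rw [upL_apply, up_congr T (x' := w), ← h2]
      · exact hbr _ hf _ hZ
      · intro j hj
        rw [xt_lt _ hj]
    have h4 := hc _ h3
    have h5 : f * Z - Z * f = w 0 • N := by
      rw [h2, up_congr T (x' := (w 0) • fun _ => (1 : k)), di_smul, di_one, mul_smul_comm, mul_one]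
      intro j hj
      rw [Pi.smul_apply, smul_eq_mul, mul_one]
      exact h4 ⟨j, hj⟩ ⟨0, hr⟩
    have h6 : LinearMap.trace k V (f * (f * Z - Z * f)) = 0 := by
      rw [mul_sub, map_sub, ← mul_assoc, ← mul_assoc, LinearMap.trace_mul_comm k (f * Z) f,
        ← mul_assoc, sub_self]
    rw [h5, mul_smul_comm, map_smul, smul_eq_mul] at h6
    have h7 := T.trace_pow_ne (m := 1) (by omega)
    rw [pow_one, pow_one] at h7
    rw [h5, (mul_eq_zero.1 h6).resolve_right h7, zero_smul]
  | succ m ih =>
    intro Z z hZ hz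
    refine hzero (m + 1 + 1) Z z (fun j => hz j) ?_
    have h1 := hbrf (m + 2) Z z (fun j => hz j)
    exact ih _ _ (hbr _ hf _ hZ) h1

variable {B : V →ₗ[k] V →ₗ[k] k} {s : k}

include hbr T hN hf in
/-- **The dichotomy.** -/
theorem dichotomy (hH : H ∈ L) (htr : ∀ X ∈ L, LinearMap.trace k V X = 0)
    (hsk : ∀ X ∈ L, ∀ x y, B (X x) y = - B x (X y)) (h7 : r + 1 ≠ 7)
    (hsr : s = (-1) ^ r) (hBo : ∀ a b, a ≤ r → b ≤ r → a + b ≠ r →
      B ((N ^ a) v) ((N ^ b) v) = 0) (b0 : k) (hb0 : b0 ≠ 0)
    (hB : ∀ a b, a + b = r → B ((N ^ a) v) ((N ^ b) v) = (-1) ^ a * b0) :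
    (4 ≤ r + 1 ∧ ∀ X ∈ L, ∃ a b c : k, X = a • N + b • H + c • f) ∨
      ∀ u u' : V, WW B s u u' ∈ L := by
  have hss : s * s = 1 := by
    rw [hsr, ← mul_pow]
    norm_num
  -- the functions are symmetric
  have hsym : ∀ x : Fin r → k, upL T x ∈ L → ∀ j, j < r → xt x (r - 1 - j) = xt x j := by
    intro x hx j hj
    have h1 := hsk _ hx ((N ^ j) v) ((N ^ (r - 1 - j)) v)
    rw [upL_apply, up_apply, up_apply, map_smul, map_smul, LinearMap.smul_apply, smul_eq_mul,
      smul_eq_mul, hB (j + 1) (r - 1 - j) (by omega), hB j (r - 1 - j + 1) (by omega)] at h1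
    have h2 : ((-1 : k) ^ j * b0) ≠ 0 := mul_ne_zero (pow_ne_zero _ (by norm_num)) hb0
    have h3 : ((-1 : k) ^ j * b0) * (xt x (r - 1 - j) - xt x j) = 0 := by
      rw [pow_succ] at h1
      linear_combination h1
    exact sub_eq_zero.1 ((mul_eq_zero.1 h3).resolve_left h2)
  rcases (compat L hbr T hN hf hsym).classify h7 with ⟨h4, hall⟩ | hcl
  · left
    refine ⟨h4, ?_⟩
    have hc : ∀ x : Fin r → k, upL T x ∈ L → ∀ i j, x i = x j := by
      have h5 : ∀ x : Fin r → k, upL T x ∈ L → ∀ i : Fin r, x ⟨0, by omega⟩ = x i := by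
        intro x hx i
        have h6 := hall ((i : ℕ) + 1) (by omega) (by omega) x hx
        rw [Nat.sub_self, xt_lt _ (show 0 < r by omega), Nat.add_sub_cancel, xt_fin] at h6
        exact h6
      intro x hx i j
      rw [← h5 x hx i, ← h5 x hx j]
    rcases three L hbr htr T (by omega) hN hH hf with h5 | ⟨m, hm2, hmr, hNm⟩
    · exact h5
    · exfalso
      have h6 := no_higher L T hbr hf (by omega) hc (m - 2) (N ^ m) (fun _ => 1) hNm (fun j => by
        rw [T.N_pow, one_smul]
        congr 3
        omega)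
      have h8 : N ^ r = 0 := by
        rw [show r = m + (r - m) by omega, pow_add, h6, zero_mul]
      exact T.reg.ne h8
  · right
    have hup' : ∀ c, c < r → upL T (fun i : Fin r => sg r c i) ∈ L := by
      intro c hc
      have h5 : (fun i : Fin r => sg (k := k) r c i) =
          (if c + c + 1 = r then (2 : k) else 1) • ind (UA L hbr T hN hf) ⟨c, hc⟩ := by
        funext i
        rw [Pi.smul_apply, smul_eq_mul]
        unfold ind
        have h6 : (∀ x ∈ UA L hbr T hN hf, x ⟨c, hc⟩ = x i) ↔ RR (UA L hbr T hN hf) (c + 1) (i + 1) := by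
          unfold RR
          simp only [Nat.add_sub_cancel]
          constructor
          · intro h x hx
            rw [xt_lt _ hc, xt_fin]
            exact h x hx
          · intro h x hx
            have := h x hx
            rwa [xt_lt _ hc, xt_fin] at this
        have h7 := hcl (c + 1) (i + 1) (by omega) (by omega) (by omega) (by omega)
        unfold sg
        by_cases h8 : (i : ℕ) = c
        · rw [if_pos (h6.2 (h7.2 (by omega))), if_pos h8]
          by_cases h9 : c + c + 1 = r
          · rw [if_pos h9, if_pos (by omega)]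
            norm_num
          · rw [if_neg h9, if_neg (by omega)]
            norm_num
        · rw [if_neg h8]
          by_cases h9 : (i : ℕ) + c + 1 = r
          · rw [if_pos (h6.2 (h7.2 (by omega))), if_pos h9, if_neg (by omega)]
            norm_num
          · have h10 : ¬ ∀ x ∈ UA L hbr T hN hf, x ⟨c, hc⟩ = x i := by
              intro h
              have := h7.1 (h6.1 h)
              omega
            rw [if_neg h9, if_neg h10]
            norm_num
      rw [h5, map_smul]
      exact L.smul_mem _ (ind_mem (UA L hbr T hN hf) ⟨c, hc⟩)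
    have hup : ∀ c, c < r → N * di T (sg r c) ∈ L := by
      intro c hc
      have h5 := hup' c hc
      rw [upL_apply, up_congr T (x' := sg r c)] at h5
      · exact h5
      · intro j hj
        rw [xt_lt _ hj]
    have hdn : ∀ c, c < r → di T (sg r c) * f ∈ L := by
      intro c hc
      have h5 := dn_mem L hbr T hN hf (hup' c hc)
      rw [dn_congr T (x' := sg r c)] at h5
      · exact h5
      · intro j hj
        rw [xt_lt _ hj]
    exact WW_all L hbr hsk hss T hup hdn hf hsr hBo b0 hB

end main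

end Pool.Agent.D0H90.MJ
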