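import Pool.Agent.D0H90.MJ.Defs
import Pool.Agent.D0H76.WM.Glob
import Pool.Agent.Y114.MU.Reg

/-!
# Places where the monodromy operator has one Jordan block

The weight-monodromy conjecture is true at such places.
-/

set_option autoImplicit false
set_option linter.unusedSectionVars false

namespace Pool.Agent.D0H90.MJ

open Module Polynomial Pool.Agent.Y114.MU Pool.Agent.D0H76.WM Pool.Agent.R390.SF Pool.Agent.Y800
open Pool.Agent.Y126.SH (chi)

section alg

variable {k : Type*} [Field k] {V : Type*} [AddCommGroup V] [Module k V]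

theorem aeval_Q (φ : End k V) (q i : ℕ) (x : V) :
    aeval φ ((X : ℤ[X]) ^ 2 - C ((q : ℤ) ^ i)) x = φ (φ x) - ((q : k) ^ i) • x := by
  rw [map_sub, map_pow, aeval_X, aeval_C, LinearMap.sub_apply, pow_two, Module.End.mul_apply]
  congr 1
  rw [eq_intCast, Module.End.intCast_apply]
  rw [← Int.cast_smul_eq_zsmul k]
  push_cast
  rfl

variable [CharZero k] [FiniteDimensional k V]

theorem form_pow {B : V →ₗ[k] V →ₗ[k] k} {N : End k V} (hs : ∀ x y, B (N x) y = - B x (N y))
    (a : ℕ) : ∀ x y : V, B ((N ^ a) x) y = (-1) ^ a * B x ((N ^ a) y) := by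
  induction a with
  | zero =>
    intro x y
    simp
  | succ a ih =>
    intro x y
    rw [pow_succ' N, Module.End.mul_apply, hs, ih, ← Module.End.mul_apply, ← pow_succ, ← pow_succ',
      pow_succ (-1 : k)]
    ring

/-- **Weights.** An operator with `N φ = q φ N` and a form with `B (φ x, φ y) = q ^ w B (x, y)`. -/
theorem graded_of_block {B : V →ₗ[k] V →ₗ[k] k} (hnd : ∀ x, (∀ y, B x y = 0) → x = 0)
    (hnd' : ∀ y, (∀ x, B x y = 0) → y = 0)
    {φ N : End k V} {r w q : ℕ} (hq : 1 < q) (hN : Reg N r)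
    (hs : ∀ x y, B (N x) y = - B x (N y)) (hφ : ∀ x y, B (φ x) (φ y) = (q : k) ^ w * B x y)
    (hrel : N * φ = (q : k) • (φ * N)) (hrw : r ≤ w) :
    WeightGraded w q φ N (fun i => X ^ 2 - C ((q : ℤ) ^ i)) := by
  classical
  have hq0 : (q : k) ≠ 0 := Nat.cast_ne_zero.2 (by omega)
  have hqpow : ∀ a b : ℕ, (q : k) ^ a = (q : k) ^ b → a = b := by
    intro a b hab
    have h1 : ((q ^ a : ℕ) : k) = ((q ^ b : ℕ) : k) := by
      push_cast
      exact hab
    exact Nat.pow_right_injective (by omega) (Nat.cast_injective h1)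
  have hrel' : ∀ x, N (φ x) = (q : k) • φ (N x) := by
    intro x
    have := congrArg (fun T : End k V => T x) hrel
    exact this
  have hrelp : ∀ (m : ℕ) (x : V), (N ^ m) (φ x) = (q : k) ^ m • φ ((N ^ m) x) := by
    intro m
    induction m with
    | zero =>
      intro x
      rw [pow_zero, pow_zero, one_smul, Module.End.one_apply, Module.End.one_apply]
    | succ m ih =>
      intro x
      rw [pow_succ', Module.End.mul_apply, ih, map_smul, hrel', smul_smul, Module.End.mul_apply,
        pow_succ]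
  have hφinj : Function.Injective φ := by
    rw [injective_iff_map_eq_zero]
    intro x hx
    refine hnd x fun y => ?_
    have h1 := hφ x y
    rw [hx, map_zero, LinearMap.zero_apply] at h1
    exact (mul_eq_zero.1 h1.symm).resolve_left (pow_ne_zero _ hq0)
  obtain ⟨v, hv⟩ := hN.exists_vec
  -- the action on the kernel of `N`
  have hNe : N ((N ^ r) v) = 0 := by
    rw [← Module.End.mul_apply, ← pow_succ', hN.pow_dim, LinearMap.zero_apply]
  obtain ⟨β, hβ⟩ : ∃ β : k, φ ((N ^ r) v) = β • (N ^ r) v := by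
    refine hN.ker_one hv ?_
    rw [hrel', hNe, map_zero, smul_zero]
  have hβ0 : β ≠ 0 := by
    rintro rfl
    rw [zero_smul] at hβ
    exact hv (hφinj (hβ.trans (map_zero φ).symm))
  -- an eigenvector
  obtain ⟨u, hu0, hu⟩ : ∃ u : V, u ≠ 0 ∧ φ u = ((q : k) ^ r * β) • u := by
    by_contra hcon
    push Not at hcon
    have hinj : Function.Injective (φ - ((q : k) ^ r * β) • (1 : End k V)) := by
      rw [injective_iff_map_eq_zero]
      intro x hx
      by_contra hx0
      apply hcon x hx0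
      rw [LinearMap.sub_apply, LinearMap.smul_apply, Module.End.one_apply, sub_eq_zero] at hx
      exact hx
    obtain ⟨x, hx⟩ := (LinearMap.injective_iff_surjective.1 hinj) v
    apply hv
    rw [← hx, LinearMap.sub_apply, LinearMap.smul_apply, Module.End.one_apply, map_sub, map_smul,
      hrelp]
    obtain ⟨c, hc⟩ : ∃ c : k, (N ^ r) x = c • (N ^ r) v := by
      refine hN.ker_one hv ?_
      rw [← Module.End.mul_apply, ← pow_succ', hN.pow_dim, LinearMap.zero_apply]
    rw [hc, map_smul, hβ, smul_smul, smul_smul, smul_smul, ← sub_smul]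
    have h1 : (q : k) ^ r * (c * β) - (q : k) ^ r * β * c = 0 := by ring
    rw [mul_assoc, h1, zero_smul]
  -- it is cyclic
  have hur : (N ^ r) u ≠ 0 := by
    intro h0
    have hex : ∃ m, (N ^ m) u = 0 := ⟨r, h0⟩
    set m := Nat.find hex with hm
    have hm1 : (N ^ m) u = 0 := Nat.find_spec hex
    have hm0 : m ≠ 0 := by
      intro h
      rw [h, pow_zero, Module.End.one_apply] at hm1
      exact hu0 hm1
    have hmr : m ≤ r := Nat.find_min' hex h0
    obtain ⟨m', hm'⟩ := Nat.exists_eq_succ_of_ne_zero hm0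
    have hy0 : (N ^ m') u ≠ 0 := Nat.find_min hex (by omega)
    have hNy : N ((N ^ m') u) = 0 := by
      rw [← Module.End.mul_apply, ← pow_succ', ← Nat.succ_eq_add_one, ← hm']
      exact hm1
    obtain ⟨c, hc⟩ := hN.ker_one hv hNy
    have h1 := hrelp m' u
    rw [hu, map_smul, hc, map_smul, hβ, smul_smul, smul_smul, smul_smul] at h1
    have hc0 : c ≠ 0 := by
      rintro rfl
      rw [zero_smul] at hc
      exact hy0 hc
    have h2 : ((q : k) ^ r * β * c - (q : k) ^ m' * (c * β)) • (N ^ r) v = 0 := by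
      rw [sub_smul, h1, mul_assoc, sub_self]
    have h3 := (smul_eq_zero.1 h2).resolve_right hv
    have h4 : ((q : k) ^ r - (q : k) ^ m') * (β * c) = 0 := by linear_combination h3
    have h5 := (mul_eq_zero.1 h4).resolve_right (mul_ne_zero hβ0 hc0)
    have h6 := hqpow r m' (sub_eq_zero.1 h5)
    omega
  set α := (q : k) ^ r * β with hα
  have hev : ∀ j : ℕ, ((q : k) ^ j) • φ ((N ^ j) u) = α • (N ^ j) u := by
    intro j
    rw [← hrelp, hu, map_smul]
  -- the eigenvalue
  have hB : B u ((N ^ r) u) ≠ 0 := by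
    intro h0
    apply hur
    refine hnd' _ fun x => ?_
    obtain ⟨c, rfl⟩ := hN.exists_coeff hur x
    rw [map_sum, LinearMap.sum_apply, Finset.sum_eq_zero]
    intro i _
    rw [map_smul, LinearMap.smul_apply, form_pow hs]
    rcases Nat.eq_zero_or_pos i with hi | hi
    · rw [hi, pow_zero, pow_zero, Module.End.one_apply, h0, mul_zero, smul_zero]
    · rw [← Module.End.mul_apply, ← pow_add, hN.pow_zero_of_lt (show r < i + r by omega),
        LinearMap.zero_apply, map_zero, mul_zero, smul_zero]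
  have hα2 : α ^ 2 = (q : k) ^ (w + r) := by
    have h1 := hφ u ((q : k) ^ r • (N ^ r) u)
    rw [map_smul φ, hev, hu, map_smul, map_smul, map_smul, LinearMap.smul_apply, smul_eq_mul,
      smul_eq_mul, smul_eq_mul] at h1
    have h2 : (α ^ 2 - (q : k) ^ (w + r)) * B u ((N ^ r) u) = 0 := by
      rw [pow_add]
      linear_combination h1
    exact sub_eq_zero.1 ((mul_eq_zero.1 h2).resolve_right hB)
  have hev2 : ∀ j : ℕ, j ≤ r → φ (φ ((N ^ j) u)) = ((q : k) ^ (w + r - 2 * j)) • (N ^ j) u := by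
    intro j hj
    have hqj : (q : k) ^ j ≠ 0 := pow_ne_zero _ hq0
    have h1 : φ ((N ^ j) u) = (((q : k) ^ j)⁻¹ * α) • (N ^ j) u := by
      rw [← smul_smul, ← hev, smul_smul, inv_mul_cancel₀ hqj, one_smul]
    rw [h1, map_smul, h1, smul_smul]
    congr 1
    have h2 : (q : k) ^ (w + r) = (q : k) ^ j * (q : k) ^ j * (q : k) ^ (w + r - 2 * j) := by
      rw [← pow_add, ← pow_add]
      congr 1
      omega
    have h3 : ((q : k) ^ j)⁻¹ * α * (((q : k) ^ j)⁻¹ * α) =
        ((q : k) ^ j)⁻¹ * ((q : k) ^ j)⁻¹ * α ^ 2 := by ring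
    rw [h3, hα2, h2]
    field_simp
  have hcoef : ∀ (x : V) (i : ℕ), φ (φ x) = ((q : k) ^ i) • x →
      ∃ c : ℕ → k, x = ∑ j ∈ Finset.range (r + 1), c j • (N ^ j) u ∧
        ∀ j, j ≤ r → w + r - 2 * j ≠ i → c j = 0 := by
    intro x i hx
    obtain ⟨c, hc⟩ := hN.exists_coeff hur x
    refine ⟨c, hc, ?_⟩
    have h1 : ∑ j ∈ Finset.range (r + 1),
        (c j * ((q : k) ^ (w + r - 2 * j) - (q : k) ^ i)) • (N ^ j) u = 0 := by
      have h2 : φ (φ x) - ((q : k) ^ i) • x = 0 := by rw [hx, sub_self]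
      rw [hc, map_sum, map_sum, Finset.smul_sum, ← Finset.sum_sub_distrib] at h2
      rw [← h2]
      refine Finset.sum_congr rfl fun j hj => ?_
      rw [Finset.mem_range] at hj
      rw [map_smul, map_smul, hev2 j (by omega), smul_smul, smul_smul, ← sub_smul]
      congr 1
      ring
    intro j hj hne
    have h2 := Fintype.linearIndependent_iff.1 (hN.linInd hur)
      (fun j : Fin (r + 1) => c j * ((q : k) ^ (w + r - 2 * (j : ℕ)) - (q : k) ^ i)) (by
        rw [← h1, Finset.sum_range]) ⟨j, by omega⟩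
    refine (mul_eq_zero.1 h2).resolve_right ?_
    intro h3
    exact hne (hqpow _ _ (sub_eq_zero.1 h3))
  refine ⟨fun i => monic_X_pow_sub_C _ two_ne_zero, ?_, ?_, ?_, ?_, ?_⟩
  · intro i z hz
    rw [mem_aroots] at hz
    have h1 := hz.2
    rw [map_sub, map_pow, aeval_X, aeval_C, sub_eq_zero] at h1
    rw [← norm_pow, h1]
    simp
  · -- the total polynomial
    have h1 : ∀ j, j ≤ r → aeval φ (∏ i ∈ Finset.range (2 * w + 1),
        ((X : ℤ[X]) ^ 2 - C ((q : ℤ) ^ i))) ((N ^ j) u) = 0 := by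
      intro j hj
      have hmem : w + r - 2 * j ∈ Finset.range (2 * w + 1) := by
        rw [Finset.mem_range]
        omega
      rw [← Finset.prod_erase_mul _ _ hmem, map_mul, Module.End.mul_apply, aeval_Q, hev2 j hj,
        sub_self, map_zero]
    refine (hN.bas hur).ext fun j => ?_
    rw [hN.bas_apply hur, h1 j (by omega), LinearMap.zero_apply]
  · intro i x hx
    rw [aeval_Q, sub_eq_zero] at hx ⊢
    have h1 : ((q : k) ^ 2) • φ (φ (N x)) = ((q : k) ^ 2) • ((q : k) ^ i) • N x := by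
      have e1 : N (φ (φ x)) = ((q : k) * q) • φ (φ (N x)) := by
        rw [hrel', hrel', map_smul, smul_smul]
      have e2 : N (φ (φ x)) = (q : k) ^ (i + 2) • N x := by rw [hx, map_smul]
      rw [pow_two, ← e1, e2, smul_smul]
      congr 1
      ring
    exact smul_right_injective V (pow_ne_zero 2 hq0) h1
  · intro i hi x hx
    rw [aeval_Q, sub_eq_zero] at hx
    obtain ⟨c, hc, hc0⟩ := hcoef x i hx
    rw [hc, map_sum, Finset.sum_eq_zero]
    intro j hj
    rw [Finset.mem_range] at hj
    by_cases hjr : j = r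
    · rw [hjr, map_smul, ← Module.End.mul_apply, ← pow_succ', hN.pow_dim, LinearMap.zero_apply,
        smul_zero]
    · rw [hc0 j (by omega) (by omega), zero_smul, map_zero]
  · intro j hj x hx hNx
    rw [aeval_Q, sub_eq_zero] at hx
    obtain ⟨c, hc, hc0⟩ := hcoef x (w + j) hx
    by_cases hex : ∃ m, m ≤ r ∧ w + r - 2 * m = w + j
    · obtain ⟨m, hm, hmj⟩ := hex
      have h1 : x = c m • (N ^ m) u := by
        rw [hc, Finset.sum_eq_single m]
        · intro i hi hne
          rw [Finset.mem_range] at hi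
          rw [hc0 i (by omega) (by omega), zero_smul]
        · intro h
          exact absurd (Finset.mem_range.2 (by omega)) h
      rw [h1, map_smul, ← Module.End.mul_apply, ← pow_add] at hNx
      have h2 : (N ^ (j + m)) u ≠ 0 := by
        intro h3
        apply hur
        rw [show r = (r - (j + m)) + (j + m) by omega, pow_add, Module.End.mul_apply, h3, map_zero]
      rw [h1, (smul_eq_zero.1 hNx).resolve_right h2, zero_smul]
    · push Not at hex
      rw [hc, Finset.sum_eq_zero]
      intro i hi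
      rw [Finset.mem_range] at hi
      rw [hc0 i (by omega) (hex i (by omega)), zero_smul]

end alg

variable {F : SubFld ℚ} {ℓ w : ℕ} [hℓ : Fact ℓ.Prime] {h : ℕ → ℕ} {k : Type}
  [NormedField k] [NormedAlgebra ℚ_[ℓ] k] {Γ : Type} [Group Γ] {n : ℕ}

variable {A : MotivicRep F ℓ w h k Γ n} {p : ℕ} {P : Ideal ZBar} {N : Matrix (Fin n) (Fin n) k}

theorem OneBlockAt.pos (h1 : OneBlockAt A p P N) : 0 < n := by
  rcases Nat.eq_zero_or_pos n with rfl | h2
  · exact absurd (Subsingleton.elim _ _) h1.block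
  · exact h2

theorem OneBlockAt.reg (h1 : OneBlockAt A p P N) : Reg (Matrix.toLin' N) (n - 1) := by
  have h0 := h1.pos
  refine ⟨?_, ⟨n, ?_⟩, ?_⟩
  · rw [Module.finrank_fin_fun]
    omega
  · rw [← Matrix.toLin'_pow, h1.nilpotent, map_zero]
  · rw [← Matrix.toLin'_pow]
    intro h2
    exact h1.block (Matrix.toLin'.injective (h2.trans (map_zero _).symm))

theorem form_skew' (hskew : N.transpose * A.J = -(A.J * N)) (x y : Fin n → k) :
    form A (Matrix.toLin' N x) y = - form A x (Matrix.toLin' N y) := by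
  rw [form_apply, form_apply, Matrix.toLin'_apply, Matrix.toLin'_apply, Matrix.mulVec_mulVec,
    ← dotProduct_neg, ← Matrix.neg_mulVec, ← hskew, ← Matrix.mulVec_mulVec,
    Matrix.dotProduct_mulVec x, Matrix.vecMul_transpose]

theorem chi_geom (hp : p.Prime) (hpℓ : ℓ ≠ p) (hP : P.IsMaximal) (hpP : (p : ZBar) ∈ P) {q : ℕ}
    {σ : GQ} (hσ : IsGeomFrob q P σ) : (chi ℓ σ : ℤ_[ℓ]) * (q : ℤ_[ℓ]) = 1 := by
  have h1 := Pool.Agent.Y802.chi_frob' (K := ℚ) (p := ℓ) (q := q) (P := P) hP.isPrime
    (Pool.Agent.Y126.SH.not_mem_of_ne hp hℓ.out hpℓ hP hpP) (σ := σ⁻¹) (fun x => arith_of_geom hσ x)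
  rw [← h1, Pool.Agent.Y126.SH.chi_eq, map_inv, ← Units.val_mul, mul_inv_cancel, Units.val_one]

theorem form_frob (A : MotivicRep F ℓ w h k Γ n) (hp : p.Prime) (hpℓ : ℓ ≠ p) (hP : P.IsMaximal)
    (hpP : (p : ZBar) ∈ P) {q : ℕ} {σ : F.fixingSubgroup} (hσ : IsGeomFrob q P σ) (x y : Fin n → k) :
    form A (act A σ x) (act A σ y) = (q : k) ^ w * form A x y := by
  have h1 := A.motivic.equivariant σ
  have h2 : cycl ℓ k σ * (q : k) = 1 := by
    have h3 := congrArg (coef ℓ k) (chi_geom hp hpℓ hP hpP hσ)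
    rwa [map_mul, map_natCast, map_one] at h3
  have h4 : ((A.ρ (A.θ σ)).1.transpose * A.J * (A.ρ (A.θ σ)).1) = (q : k) ^ w • A.J := by
    have h5 := congrArg (fun M : Matrix (Fin n) (Fin n) k => (q : k) ^ w • M) h1
    simp only [smul_smul, ← mul_pow] at h5
    rw [mul_comm (q : k), h2, one_pow, one_smul] at h5
    exact h5
  rw [form_apply, form_apply]
  unfold act
  rw [Matrix.toLin'_apply, Matrix.toLin'_apply, Matrix.mulVec_mulVec, Matrix.dotProduct_mulVec,
    ← Matrix.vecMul_transpose, Matrix.vecMul_vecMul, ← Matrix.mul_assoc, h4, Matrix.vecMul_smul,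
    smul_dotProduct, smul_eq_mul, Matrix.dotProduct_mulVec]

/-- **The weight-monodromy conjecture holds.** -/
theorem OneBlockAt.monodromy (h1 : OneBlockAt A p P N) (hp : p.Prime) (hpℓ : ℓ ≠ p)
    (hP : P.IsMaximal) (hpP : (p : ZBar) ∈ P) : MonodromyAt A p P N := by
  have : CharZero k := charZero_of_injective_algebraMap (algebraMap ℚ_[ℓ] k).injective
  refine ⟨h1.mem, h1.skew, fun f hf σ hσ => ⟨_, graded_of_block (B := form A) (form_nondeg A) ?_
    (Nat.one_lt_pow (by omega) hp.one_lt) h1.reg (form_skew' h1.skew)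
    (form_frob A hp hpℓ hP hpP hσ) ?_ ?_⟩⟩
  · intro y hy
    refine form_nondeg A y fun x => ?_
    rw [form_symm, hy, mul_zero]
  · have h2 := h1.frob f hf σ hσ
    have h3 := congrArg Matrix.toLin' h2
    rw [Matrix.toLin'_mul, map_smul, Matrix.toLin'_mul] at h3
    exact h3
  · have := h1.pos
    have := h1.size
    omega

end Pool.Agent.D0H90.MJ
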