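import Pool.Agent.D0H90.MJ.Grade
import Pool.Agent.D0H90.MJ.Fft
import Pool.Agent.Y114.MU.Log

/-!
# The Lie algebra which kills all semi-invariant forms
-/

set_option autoImplicit false
set_option linter.unusedSectionVars false

namespace Pool.Agent.D0H90.MJ

open Module Polynomial Pool.Agent.Y114.MU Pool.Agent.H204R3.SP

variable {k : Type*} [Field k] {V : Type*} [AddCommGroup V] [Module k V] {Γ : Type*} [Group Γ]

/-- A subgroup of finite index acts on the form by scalars. -/
def SemiInv (ρ : Representation k Γ V) {S : Type} (φ : MultilinearMap k (fun _ : S => V) k) : Prop :=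
  ∃ Δ : Subgroup Γ, Δ.FiniteIndex ∧ ∃ c : Γ → k, ∀ g ∈ Δ, ∀ v, φ (fun j => ρ g (v j)) = c g * φ v

/-- The endomorphisms which kill all semi-invariant forms. -/
def lieS (ρ : Representation k Γ V) : Submodule k (End k V) where
  carrier := {X | ∀ (S : Type) [Fintype S] [DecidableEq S] (φ : MultilinearMap k (fun _ : S => V) k),
    SemiInv ρ φ → Kills X φ}
  zero_mem' := by
    intro S _ _ φ _ v
    refine Finset.sum_eq_zero fun j _ => ?_
    rw [LinearMap.zero_apply]
    exact φ.map_coord_zero j (Function.update_self _ _ _)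
  add_mem' := by
    intro X Y hX hY S _ _ φ hφ v
    have h1 := hX S φ hφ v
    have h2 := hY S φ hφ v
    have h3 := congrArg₂ (fun x y : k => x + y) h1 h2
    simp only [add_zero] at h3
    rw [← h3, ← Finset.sum_add_distrib]
    refine Finset.sum_congr rfl fun j _ => ?_
    rw [LinearMap.add_apply, MultilinearMap.map_update_add]
  smul_mem' := by
    intro c X hX S _ _ φ hφ v
    have h1 := hX S φ hφ v
    rw [← mul_zero c, ← h1, Finset.mul_sum]
    refine Finset.sum_congr rfl fun j _ => ?_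
    rw [LinearMap.smul_apply, MultilinearMap.map_update_smul, smul_eq_mul]

variable {ρ : Representation k Γ V}

theorem lieS_bracket {X Y : End k V} (hX : X ∈ lieS ρ) (hY : Y ∈ lieS ρ) :
    X * Y - Y * X ∈ lieS ρ :=
  fun S _ _ φ hφ => kills_bracket (hX S φ hφ) (hY S φ hφ)

theorem lieS_conj (s : Γ) {X : End k V} (hX : X ∈ lieS ρ) : ρ s * X * ρ s⁻¹ ∈ lieS ρ := by
  intro S _ _ φ hφ v
  obtain ⟨Δ, hΔ, c, hc⟩ := hφ
  let φ' : MultilinearMap k (fun _ : S => V) k := φ.compLinearMap (fun _ => ρ s)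
  have hφ' : SemiInv ρ φ' := by
    refine ⟨Δ.comap (MulAut.conj s).toMonoidHom, ⟨by
      rw [Subgroup.index_comap_of_surjective _ (MulAut.conj s).surjective]
      exact hΔ.index_ne_zero⟩, fun t => c (s * t * s⁻¹), fun t ht v => ?_⟩
    have h1 : s * t * s⁻¹ ∈ Δ := by
      rw [Subgroup.mem_comap] at ht
      exact ht
    have h2 := hc _ h1 (fun j => ρ s (v j))
    change φ (fun j => ρ s (ρ t (v j))) = c (s * t * s⁻¹) * φ (fun j => ρ s (v j))
    have h3 : ∀ j, ρ (s * t * s⁻¹) (ρ s (v j)) = ρ s (ρ t (v j)) := by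
      intro j
      rw [map_mul, map_mul, Module.End.mul_apply, Module.End.mul_apply, rho_inv]
    simp only [h3] at h2
    exact h2
  have h1 := hX S φ' hφ' (fun j => ρ s⁻¹ (v j))
  rw [← h1]
  refine Finset.sum_congr rfl fun j _ => ?_
  change _ = φ (fun l => ρ s (Function.update (fun j => ρ s⁻¹ (v j)) j (X (ρ s⁻¹ (v j))) l))
  congr 1
  funext l
  by_cases h : l = j
  · subst h
    rw [Function.update_self, Function.update_self]
    rfl
  · rw [Function.update_of_ne h, Function.update_of_ne h, rho_inv']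

section unip

variable [CharZero k]

/-- A polynomial function which is geometric is constant. -/
theorem geometric {G : k[X]} {c : k} {F : ℕ → k} {M : ℕ} (hG : ∀ t : ℕ, F t = G.eval ((M * t : ℕ) : k))
    (hF : ∀ t, F (t + 1) = c * F t) (t : ℕ) : F t = F 0 := by
  set G1 := G.comp (C (M : k) * X) with hG1
  have h1 : ∀ t : ℕ, G1.eval (t : k) = F t := by
    intro t
    rw [hG1, eval_comp, eval_mul, eval_C, eval_X, hG]
    push_cast
    rfl
  have h2 : G1.comp (X + C 1) - C c * G1 = 0 := by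
    refine Polynomial.eq_zero_of_infinite_isRoot _ ?_
    refine Set.infinite_of_injective_forall_mem (f := fun t : ℕ => (t : k)) Nat.cast_injective ?_
    intro t
    change IsRoot _ _
    rw [IsRoot.def, eval_sub, eval_comp, eval_add, eval_X, eval_C, eval_mul, eval_C, h1,
      show (t : k) + 1 = ((t + 1 : ℕ) : k) by push_cast; rfl, h1, hF, sub_self]
  by_cases h0 : G1 = 0
  · rw [← h1, ← h1, h0, eval_zero, eval_zero]
  · have h3 := congrArg leadingCoeff (sub_eq_zero.1 h2)
    rw [leadingCoeff_comp (by rw [natDegree_X_add_C]; exact one_ne_zero), leadingCoeff_X_add_C,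
      one_pow, mul_one, leadingCoeff_mul, leadingCoeff_C] at h3
    have h4 : c = 1 := by
      have h5 : G1.leadingCoeff ≠ 0 := leadingCoeff_ne_zero.2 h0
      have h6 : (c - 1) * G1.leadingCoeff = 0 := by linear_combination -h3
      exact sub_eq_zero.1 ((mul_eq_zero.1 h6).resolve_right h5)
    induction t with
    | zero => rfl
    | succ t ih => rw [hF, h4, one_mul, ih]

theorem poly_form {S : Type} [Fintype S] [DecidableEq S] (φ : MultilinearMap k (fun _ : S => V) k)
    (A : ℕ → End k V) (d : ℕ) (v : S → V) : ∃ G : k[X], ∀ t : k,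
      φ (fun l => (∑ i ∈ Finset.range d, t ^ i • A i) (v l)) = G.eval t := by
  classical
  let P : Finset (S → ℕ) := Fintype.piFinset fun _ => Finset.range d
  refine ⟨∑ r ∈ P, C (φ fun l => A (r l) (v l)) * X ^ (∑ l, r l), fun t => ?_⟩
  simp only [eval_finsetSum, eval_mul, eval_C, eval_pow, eval_X]
  have h1 : (fun l => (∑ i ∈ Finset.range d, t ^ i • A i) (v l)) =
      fun l => ∑ i ∈ Finset.range d, t ^ i • A i (v l) := by
    funext l
    rw [LinearMap.sum_apply]
    rfl
  rw [h1, φ.map_sum_finset (fun l i => t ^ i • A i (v l)) (fun _ => Finset.range d)]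
  refine Finset.sum_congr rfl fun r _ => ?_
  rw [φ.map_smul_univ, smul_eq_mul, Finset.prod_pow_eq_pow_sum, mul_comm]

/-- If the powers of `ρ τ` are polynomial, the linear coefficient is in the Lie algebra. -/
theorem coeff_mem (A : ℕ → End k V) {d : ℕ} (hd : 2 ≤ d) (hA0 : A 0 = 1) {τ : Γ}
    (hτ : ∀ m : ℕ, ρ τ ^ m = ∑ i ∈ Finset.range d, ((m : k) ^ i) • A i) : A 1 ∈ lieS ρ := by
  intro S _ _ φ hφ
  obtain ⟨Δ, hΔ, c, hc⟩ := hφ
  obtain ⟨M, hM0, -, hM⟩ := Subgroup.exists_pow_mem_of_index_ne_zero hΔ.index_ne_zero τ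
  refine kills_of_fixed φ A hd hA0 hM0 ?_
  intro t v
  obtain ⟨G, hG⟩ := poly_form φ A d v
  have h1 : ∀ t : ℕ, φ (fun l => (ρ τ ^ (M * t)) (v l)) = G.eval ((M * t : ℕ) : k) := by
    intro t
    rw [hτ, hG]
  have h2 : ∀ t : ℕ, φ (fun l => (ρ τ ^ (M * (t + 1))) (v l)) =
      c (τ ^ M) * φ (fun l => (ρ τ ^ (M * t)) (v l)) := by
    intro t
    rw [← hc _ hM]
    congr 1
    funext l
    rw [← Module.End.mul_apply, map_pow, ← pow_add]
    congr 2
    ring
  have h3 := geometric h1 h2 t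
  rw [← hτ, h3]
  rfl

theorem lgS_mem {τ : Γ} {d : ℕ} (hν : (ρ τ - 1) ^ (d + 2) = 0) :
    lgA (d + 2) (ρ τ - 1) 1 ∈ lieS ρ := by
  refine coeff_mem (lgA (d + 2) (ρ τ - 1)) (d := d + 2) (by omega) (lgA_zero (by omega) _)
    (τ := τ) fun m => ?_
  have h1 := lgA_pow hν m
  rwa [add_sub_cancel] at h1

theorem exp_pow {A : Type*} [Ring A] [Algebra k A] {N : A} {d : ℕ} (hN : N ^ d = 0) (m : ℕ) :
    (∑ i ∈ Finset.range d, ((i.factorial : k)⁻¹) • N ^ i) ^ m =
      ∑ i ∈ Finset.range d, ((m : k) ^ i) • (((i.factorial : k)⁻¹) • N ^ i) := by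
  letI : Module ℚ A := Module.compHom A (algebraMap ℚ k)
  have hq : ∀ (q : ℚ) (a : A), q • a = (algebraMap ℚ k q) • a := fun _ _ => rfl
  have hfac : ∀ (i : ℕ) (a : A), ((i.factorial : ℚ)⁻¹) • a = ((i.factorial : k)⁻¹) • a := by
    intro i a
    rw [hq, map_inv₀, map_natCast]
  have hnil : ∀ m : ℕ, (m • N) ^ d = 0 := by
    intro m
    rw [_root_.smul_pow, hN, smul_zero]
  have h1 : ∀ m : ℕ, IsNilpotent.exp (m • N) =
      ∑ i ∈ Finset.range d, ((m : k) ^ i) • (((i.factorial : k)⁻¹) • N ^ i) := by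
    intro m
    rw [IsNilpotent.exp_eq_sum (hnil m)]
    refine Finset.sum_congr rfl fun i _ => ?_
    rw [hfac, _root_.smul_pow, ← Nat.cast_smul_eq_nsmul k, smul_comm]
    push_cast
    rfl
  have h2 : ∀ m : ℕ, IsNilpotent.exp (m • N) = IsNilpotent.exp N ^ m := by
    intro m
    induction m with
    | zero => rw [zero_smul, IsNilpotent.exp_zero, pow_zero]
    | succ m ih =>
      rw [succ_nsmul, IsNilpotent.exp_add_of_commute, ih, pow_succ]
      · exact (Commute.refl N).smul_left m
      · exact ⟨d, hnil m⟩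
      · exact ⟨d, hN⟩
  rw [← h1, h2, IsNilpotent.exp_eq_sum hN]
  congr 1
  exact Finset.sum_congr rfl fun i _ => (hfac i _).symm

end unip

variable [CharZero k] [FiniteDimensional k V]

/-- The elements of the Lie algebra of a nondegenerate form have trace zero. -/
theorem trace_skew (B : V →ₗ[k] V →ₗ[k] k) (hnd : ∀ u, (∀ v, B v u = 0) → u = 0)
    {X : End k V} (hX : ∀ x y, B (X x) y = - B x (X y)) : LinearMap.trace k V X = 0 := by
  have hinj : Function.Injective B.flip := by
    intro u u' h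
    rw [← sub_eq_zero]
    refine hnd _ fun v => ?_
    have h1 := congrArg (fun T => T v) h
    simp only [LinearMap.flip_apply] at h1
    rw [map_sub, h1, sub_self]
  let D : V ≃ₗ[k] Dual k V := LinearEquiv.ofInjectiveOfFinrankEq B.flip hinj
    Subspace.dual_finrank_eq.symm
  have hD : ∀ u v, D u v = B v u := fun u v => rfl
  have h1 : D.conj (-X) = Module.Dual.transpose (R := k) X := by
    refine LinearMap.ext fun l => ?_
    obtain ⟨u, rfl⟩ := D.surjective l
    rw [LinearEquiv.conj_apply_apply, LinearEquiv.symm_apply_apply]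
    refine LinearMap.ext fun v => ?_
    rw [hD, LinearMap.neg_apply, Module.Dual.transpose_apply,
      LinearMap.comp_apply, hD, map_neg]
    linear_combination -hX v u
  have h2 := LinearMap.trace_conj' (-X) D
  rw [h1, map_neg, LinearMap.trace_transpose'] at h2
  have h3 : (2 : k) * LinearMap.trace k V X = 0 := by linear_combination h2
  exact (mul_eq_zero.1 h3).resolve_left two_ne_zero

theorem skew_pow' {B : V →ₗ[k] V →ₗ[k] k} {N : End k V} (hs : ∀ x y, B (N x) y = - B x (N y))
    (a : ℕ) : ∀ x y : V, B ((N ^ a) x) y = (-1) ^ a * B x ((N ^ a) y) := by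
  induction a with
  | zero =>
    intro x y
    simp
  | succ a ih =>
    intro x y
    rw [pow_succ' N, Module.End.mul_apply, hs, ih, ← Module.End.mul_apply, ← pow_succ, ← pow_succ',
      pow_succ (-1 : k)]
    ring

/-- **Big monodromy from one regular unipotent element.** -/
theorem big {B : V →ₗ[k] V →ₗ[k] k} {c : Γ → k} (hB : ∀ g x y, B (ρ g x) (ρ g y) = c g * B x y)
    {ε : k} (hBs : ∀ x y, B x y = ε * B y x) (hnd : ∀ x, (∀ y, B x y = 0) → x = 0)
    (hirr : ∀ U : Submodule k V, (∀ g, ∀ u ∈ U, ρ g u ∈ U) → U = ⊥ ∨ U = ⊤)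
    {N : End k V} {r : ℕ} (hN : Reg N r) (hNL : N ∈ lieS ρ) (h7 : r + 1 ≠ 7)
    (hcase : 4 ≤ r + 1 → ∀ (H f : End k V) (v : V), Triple N H f r v → N ∈ lieS ρ → H ∈ lieS ρ →
      f ∈ lieS ρ → (∀ X ∈ lieS ρ, ∃ a b c : k, X = a • N + b • H + c • f) → False)
    {S : Type} [Fintype S] [DecidableEq S] (hS : Even (Fintype.card S))
    {φ : MultilinearMap k (fun _ : S => V) k} (hφ : SemiInv ρ φ) : φ ∈ PF B S := by
  classical
  have hsk : ∀ X ∈ lieS ρ, ∀ x y, B (X x) y = - B x (X y) := by
    intro X hX x y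
    have h1 := hX (Fin 2) (bil2 B) ⟨⊤, inferInstance, c, fun g _ v => by
      rw [bil2_apply, bil2_apply, hB]⟩ ![x, y]
    rw [Fin.sum_univ_two, bil2_apply, bil2_apply] at h1
    simp only [Function.update_self, Matrix.cons_val_zero, Matrix.cons_val_one] at h1
    rw [Function.update_of_ne (by decide), Function.update_of_ne (by decide)] at h1
    simp only [Matrix.cons_val_zero, Matrix.cons_val_one] at h1
    linear_combination h1
  have hnd' : ∀ u, (∀ v, B v u = 0) → u = 0 := by
    intro u hu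
    refine hnd u fun y => ?_
    rw [hBs, hu, mul_zero]
  have htr : ∀ X ∈ lieS ρ, LinearMap.trace k V X = 0 := fun X hX => trace_skew B hnd' (hsk X hX)
  have hbr : ∀ X ∈ lieS ρ, ∀ Y ∈ lieS ρ, X * Y - Y * X ∈ lieS ρ := fun X hX Y hY => lieS_bracket hX hY
  -- irreducibility
  have hirrL : ∀ U : Submodule k V, (∀ X ∈ lieS ρ, ∀ u ∈ U, X u ∈ U) → U = ⊥ ∨ U = ⊤ := by
    intro U hU
    refine hirr U fun s => ?_
    have h1 : ∀ X ∈ lieS ρ, ∀ u ∈ U.map (ρ s), X u ∈ U.map (ρ s) := by
      rintro X hX _ ⟨u, hu, rfl⟩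
      have h2 := lieS_conj s⁻¹ hX
      rw [inv_inv] at h2
      refine ⟨(ρ s⁻¹ * X * ρ s) u, hU _ h2 u hu, ?_⟩
      rw [Module.End.mul_apply, Module.End.mul_apply, rho_inv']
    have h2 := hN.stable (hU N hNL)
    have h3 := hN.stable (h1 N hNL)
    have h4 : finrank k (U.map (ρ s)) = finrank k U := by
      refine LinearEquiv.finrank_eq (LinearEquiv.symm (Submodule.equivMapOfInjective (ρ s) ?_ U))
      intro x y hxy
      have := congrArg (ρ s⁻¹) hxy
      rwa [rho_inv, rho_inv] at this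
    rw [h4, ← h2] at h3
    intro u hu
    rw [← h3]
    exact ⟨u, hu, rfl⟩
  obtain ⟨H, f, v, T, hHL, hfL⟩ := exists_triple (lieS ρ) hbr hirrL htr hN hNL
  -- the form in the basis
  have hBab : ∀ a b, B ((N ^ a) v) ((N ^ b) v) = (-1) ^ a * B v ((N ^ (a + b)) v) := by
    intro a b
    rw [skew_pow' (hsk N hNL), ← Module.End.mul_apply, ← pow_add]
  set b0 := B v ((N ^ r) v) with hb0
  have hBr : ∀ a b, a + b = r → B ((N ^ a) v) ((N ^ b) v) = (-1) ^ a * b0 := by
    intro a b hab
    rw [hBab, hab]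
  have hBo : ∀ a b, a ≤ r → b ≤ r → a + b ≠ r → B ((N ^ a) v) ((N ^ b) v) = 0 := by
    intro a b _ _ hab
    have h1 := hsk H hHL ((N ^ a) v) ((N ^ b) v)
    rw [T.wt, T.wt, map_smul, map_smul, LinearMap.smul_apply, smul_eq_mul, smul_eq_mul] at h1
    have h2 : (((a + b : ℕ) : k) - (r : k)) * B ((N ^ a) v) ((N ^ b) v) = 0 := by
      push_cast
      linear_combination h1
    refine (mul_eq_zero.1 h2).resolve_left ?_
    exact fun h => hab (Nat.cast_injective (sub_eq_zero.1 h))
  have hb0' : b0 ≠ 0 := by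
    intro h0
    have h1 : v = 0 := by
      refine hnd v fun y => ?_
      obtain ⟨c, rfl⟩ := T.reg.exists_coeff T.vec y
      rw [map_sum, Finset.sum_eq_zero]
      intro i hi
      rw [Finset.mem_range] at hi
      rw [map_smul, smul_eq_mul]
      by_cases hir : i = r
      · rw [hir, ← hb0, h0, mul_zero]
      · have h2 := hBo 0 i (Nat.zero_le _) (by omega) (by omega)
        rw [pow_zero, Module.End.one_apply] at h2
        rw [h2, mul_zero]
    apply T.vec
    rw [h1, map_zero]
  have hε : ε = (-1) ^ r := by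
    have h1 := hBr r 0 (by omega)
    rw [pow_zero, Module.End.one_apply, hBs, ← hb0] at h1
    exact mul_right_cancel₀ hb0' h1
  rcases dichotomy (lieS ρ) hbr T hNL hfL hHL htr hsk h7 hε hBo b0 hb0' hBr with ⟨h4, hall⟩ | hall
  · exact (hcase h4 H f v T hNL hHL hfL hall).elim
  · exact fft_form T hε hBs hBo hnd hS fun u u' => hall u u' S φ hφ

end Pool.Agent.D0H90.MJ
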