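import Pool.Agent.D0H90.MJ.Defs
import Pool.Agent.D0H90.MJ.Rep
import Pool.Agent.D0H90.MJ.Base
import Pool.Agent.D0H90.MJ.Place
import Pool.Agent.Results.MP_c184fc_ag.MonodromyOnePlace

/-!
# Tate classes of a motive with a place where the monodromy operator has one Jordan block
-/

set_option autoImplicit false
set_option linter.unusedSectionVars false

namespace Pool.Agent.D0H90.MJ

open Module Polynomial Matrix Pool.Agent.Y114.MU Pool.Agent.D0H76.WM Pool.Agent.R390.SF
  Pool.Agent.Y800 Pool.Agent.H204R3.SP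

variable {F : SubFld ℚ} {ℓ w : ℕ} [hℓ : Fact ℓ.Prime] {h : ℕ → ℕ} {k : Type}
  [NormedField k] [NormedAlgebra ℚ_[ℓ] k] {Γ : Type} [Group Γ] {n : ℕ}

/-- the representation -/
noncomputable def rep (A : MotivicRep F ℓ w h k Γ n) : Representation k Γ (Fin n → k) where
  toFun g := Matrix.toLin' (A.ρ g).1
  map_one' := by
    rw [map_one]
    exact Matrix.toLin'_one
  map_mul' g g' := by
    rw [map_mul]
    exact Matrix.toLin'_mul _ _

theorem rep_apply (A : MotivicRep F ℓ w h k Γ n) (g : Γ) (x : Fin n → k) :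
    rep A g x = (A.ρ g : Matrix (Fin n) (Fin n) k) *ᵥ x := Matrix.toLin'_apply _ _

theorem rep_eq (A : MotivicRep F ℓ w h k Γ n) (g : Γ) : rep A g = Matrix.toLin' (A.ρ g).1 := rfl

variable {A : MotivicRep F ℓ w h k Γ n}

theorem form_simil (A : MotivicRep F ℓ w h k Γ n) : ∃ c : Γ → k, ∀ g x y,
    form A (rep A g x) (rep A g y) = c g * form A x y := by
  obtain ⟨c, hc⟩ := A.similitude
  by_cases hn : n = 0
  · subst hn
    refine ⟨fun _ => 0, fun g x y => ?_⟩
    have h1 : ∀ z : Fin 0 → k, z = 0 := fun z => Subsingleton.elim _ _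
    rw [h1 (rep A g x), h1 x, map_zero, LinearMap.zero_apply, zero_mul]
  have hc0 : ∀ g, c g ≠ 0 := by
    intro g h0
    have h1 := hc g
    rw [h0, zero_smul] at h1
    apply A.nondegenerate
    rw [← h1]
    have : Nonempty (Fin n) := ⟨⟨0, by omega⟩⟩
    exact Matrix.det_zero
  refine ⟨fun g => (c g)⁻¹, fun g x y => ?_⟩
  have h4 : ((A.ρ g).1.transpose * A.J * (A.ρ g).1) = (c g)⁻¹ • A.J := by
    have h5 := congrArg (fun M : Matrix (Fin n) (Fin n) k => (c g)⁻¹ • M) (hc g)
    simp only [smul_smul] at h5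
    rw [inv_mul_cancel₀ (hc0 g), one_smul] at h5
    exact h5
  rw [form_apply, form_apply, rep_apply, rep_apply, Matrix.mulVec_mulVec, Matrix.dotProduct_mulVec,
    ← Matrix.vecMul_transpose, Matrix.vecMul_vecMul, ← Matrix.mul_assoc, h4, Matrix.vecMul_smul,
    smul_dotProduct, smul_eq_mul, Matrix.dotProduct_mulVec]

theorem mem_lieS {p : ℕ} {P : Ideal ZBar} {N : Matrix (Fin n) (Fin n) k}
    (h1 : OneBlockAt A p P N) {γ : Γ}
    (hτ : (A.ρ γ : Matrix (Fin n) (Fin n) k) =
      ∑ i ∈ Finset.range n, ((i.factorial : k)⁻¹) • N ^ i) : Matrix.toLin' N ∈ lieS (rep A) := by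
  have : CharZero k := charZero_of_injective_algebraMap (algebraMap ℚ_[ℓ] k).injective
  have h0 := h1.pos
  have hN : (Matrix.toLin' N) ^ (n + 1) = 0 := by
    rw [← Matrix.toLin'_pow, pow_succ, h1.nilpotent, zero_mul, map_zero]
  have h2 := coeff_mem (ρ := rep A) (fun i => ((i.factorial : k)⁻¹) • (Matrix.toLin' N) ^ i)
    (d := n + 1) (by omega) (by simp) (τ := γ) (fun m => by
      rw [← exp_pow hN]
      congr 1
      rw [rep_eq]
      change Matrix.toLin' (A.ρ γ : Matrix (Fin n) (Fin n) k) = _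
      rw [hτ, map_sum, Finset.sum_range_succ]
      rw [show ((n.factorial : k)⁻¹) • (Matrix.toLin' N) ^ n = 0 by
        rw [← Matrix.toLin'_pow, h1.nilpotent, map_zero, smul_zero], add_zero]
      refine Finset.sum_congr rfl fun i _ => ?_
      rw [map_smul, Matrix.toLin'_pow])
  simpa using h2

/-- **The Tate classes.** -/
theorem main [FiniteDimensional ℚ F] (A : MotivicRep F ℓ w h k Γ n) [IsUltrametricDist k] {p : ℕ} (hp : p.Prime)
    (hpℓ : ℓ ≠ p) (N : Ideal ZBar → Matrix (Fin n) (Fin n) k)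
    (hN : ∀ P : Ideal ZBar, P.IsMaximal → (p : ZBar) ∈ P →
      OneBlockAt A p P (N P) ∨ WeightMonodromyAt A p P (N P))
    {P : Ideal ZBar} (hP : P.IsMaximal) (hpP : (p : ZBar) ∈ P) (hNP : OneBlockAt A p P (N P))
    (hτ : ∃ τ : F.fixingSubgroup, InInertia P τ ∧ (A.ρ (A.θ τ) : Matrix (Fin n) (Fin n) k) =
      ∑ i ∈ Finset.range n, ((i.factorial : k)⁻¹) • N P ^ i)
    (h7 : n ≠ 7)
    (hc : n ≤ 3 ∨ (HasSen A ∧ ¬ IsProgression h w n) ∨ HasSmallUnipotent A ∨ HasThreeIndependent A)
    {S : Type} [Fintype S] [DecidableEq S] (hS : Even (Fintype.card S))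
    {φ : MultilinearMap k (fun _ : S => Fin n → k) k} (hφ : SemiInvariant A φ) :
    FromPolarization A φ := by
  classical
  have : CharZero k := charZero_of_injective_algebraMap (algebraMap ℚ_[ℓ] k).injective
  have hn0 := hNP.pos
  obtain ⟨r, rfl⟩ : ∃ r, n = r + 1 := ⟨n - 1, by omega⟩
  have hreg : Reg (Matrix.toLin' (N P)) r := hNP.reg
  -- irreducibility
  have hmon : HasMonodromy A p N := by
    intro P' hP' hpP'
    rcases hN P' hP' hpP' with h1 | h1
    · exact h1.monodromy hp hpℓ hP' hpP'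
    · exact ⟨h1.mem, h1.skew, fun f hf σ hσ => by
        obtain ⟨Q, hQ⟩ := h1.graded f hf σ hσ
        exact ⟨Q, hQ.monic, hQ.weight, hQ.total, hQ.lower, hQ.low, hQ.injective⟩⟩
  have hker : finrank k (LinearMap.ker (Matrix.toLin' (N P))) = 1 := by
    have h1 := hreg.finrank_ker_le 1
    rw [pow_one] at h1
    have h2 : LinearMap.ker (Matrix.toLin' (N P)) ≠ ⊥ := by
      obtain ⟨v, hv⟩ := hreg.exists_vec
      intro h0
      apply hv
      have h3 : (Matrix.toLin' (N P) ^ r) v ∈ LinearMap.ker (Matrix.toLin' (N P)) := by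
        rw [LinearMap.mem_ker, ← Module.End.mul_apply, ← pow_succ', hreg.pow_dim,
          LinearMap.zero_apply]
      rw [h0, Submodule.mem_bot] at h3
      exact h3
    have h3 : finrank k (LinearMap.ker (Matrix.toLin' (N P))) ≠ 0 := by
      rw [Ne, Submodule.finrank_eq_zero]
      exact h2
    omega
  have hirr : Irreducible A := (Pool.Agent.Results.MP_c184fc_ag.MonodromyOnePlace.result F ℓ w h k Γ
    (r + 1) A p hp hpℓ N hmon P hP hpP (Or.inl (distinct_of_one hker.le))).2.2 hker
  have hirr' : ∀ U : Submodule k (Fin (r + 1) → k), (∀ g, ∀ u ∈ U, rep A g u ∈ U) → U = ⊥ ∨ U = ⊤ := by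
    intro U hU
    refine hirr U fun g x hx => ?_
    have h1 := hU (A.θ g) x hx
    rw [rep_apply] at h1
    exact h1
  obtain ⟨τ, -, hτ⟩ := hτ
  have hNL : Matrix.toLin' (N P) ∈ lieS (rep A) := mem_lieS hNP hτ
  obtain ⟨c, hB⟩ := form_simil A
  have hSI : SemiInv (rep A) φ := by
    obtain ⟨Δ, hΔ, c, hc⟩ := hφ
    refine ⟨Δ, hΔ, c, fun g hg v => ?_⟩
    rw [← hc g hg]
    rfl
  have hfin := big (ρ := rep A) (B := form A) hB (form_symm A) (form_nondeg A) hirr' hreg hNL h7 ?_ hS
    hSI
  · -- translation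
    unfold FromPolarization
    let ev : MultilinearMap k (fun _ : S => Fin (r + 1) → k) k →ₗ[k] ((S → Fin (r + 1) → k) → k) :=
      { toFun := fun ψ v => ψ v
        map_add' := fun _ _ => rfl
        map_smul' := fun _ _ => rfl }
    have h1 : ev φ ∈ (PF (form A) S).map ev := Submodule.mem_map_of_mem hfin
    unfold PF at h1
    rw [Submodule.map_span] at h1
    refine Submodule.span_mono ?_ h1
    rintro _ ⟨ψ, ⟨m, e, rfl⟩, rfl⟩
    refine ⟨m, e, ?_⟩
    funext v
    change pf (form A) e v = _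
    rw [pf_apply]
    exact Finset.prod_congr rfl fun l _ => form_apply A _ _
  · -- the span of a principal triple is excluded
    intro h4 H f v T hN' hH' hf' hall
    rcases hc with h3 | ⟨hsen, hprog⟩ | ⟨γ, hγ1, hγ⟩ | ⟨γ, Q, hQ, hQ3⟩
    · omega
    · obtain ⟨K, iK, iA, iC, Θ, hΘ⟩ := hsen
      apply hprog
      have : CharZero K := charZero_of_injective_algebraMap (algebraMap k K).injective
      let W : Submodule k (Matrix (Fin (r + 1)) (Fin (r + 1)) k) :=
        (lieS (rep A)).comap (Matrix.toLin' (R := k) (m := Fin (r + 1)) (n := Fin (r + 1))).toLinearMap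
      have hW : ∀ M, M ∈ W ↔ Matrix.toLin' M ∈ lieS (rep A) := fun M => Iff.rfl
      refine hodge_progression T (by omega) hΘ.charpoly W (fun M hM => hall _ hM) ?_ ?_ ?_
        (hΘ.stable W ?_)
      · rw [hW, Matrix.toLin'_toMatrix']
        exact hN'
      · rw [hW, Matrix.toLin'_toMatrix']
        exact hH'
      · rw [hW, Matrix.toLin'_toMatrix']
        exact hf'
      · intro g M hM
        rw [hW] at hM ⊢
        have h5 := lieS_conj (A.θ g) hM
        rw [rep_eq, rep_eq, map_inv] at h5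
        rw [Matrix.toLin'_mul, Matrix.toLin'_mul]
        exact h5
    · set ν : End k (Fin (r + 1) → k) := rep A γ - 1 with hν
      have hνM : ν = Matrix.toLin' ((A.ρ γ : Matrix (Fin (r + 1)) (Fin (r + 1)) k) - 1) := by
        rw [hν, map_sub, Matrix.toLin'_one]
        rfl
      have hνr : ν ^ r = 0 := by
        rw [hνM, ← Matrix.toLin'_pow]
        rw [Nat.add_sub_cancel] at hγ
        rw [hγ, map_zero]
      have hν0 : ν ≠ 0 := by
        intro h0
        rw [hνM] at h0
        have h5 := Matrix.toLin'.injective (h0.trans (map_zero _).symm)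
        exact hγ1 (sub_eq_zero.1 h5)
      have hνnil : IsNilpotent ν := ⟨r, hνr⟩
      have hX := lgS_mem (ρ := rep A) (τ := γ) (d := r) (by
        rw [← hν, pow_add, hνr, zero_mul])
      rw [← hν] at hX
      set x := lgA (r + 2) ν 1 with hx
      have hx0 : x ≠ 0 := by
        intro h0
        have h5 := (lgA_one_pow r hνnil 1).1 (by rw [pow_one]; exact h0)
        rw [pow_one] at h5
        exact hν0 h5
      have hxr : x ^ r = 0 := (lgA_one_pow r hνnil r).2 hνr
      obtain ⟨a, b, e, habe⟩ := hall x hX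
      obtain ⟨t, ht, htr⟩ := T.traces (by omega : 0 < r)
      have h5 := htr a b e a b e
      rw [← habe] at h5
      have hxnil : IsNilpotent (x * x) := by
        rw [← pow_two]
        exact (show IsNilpotent x from ⟨r, hxr⟩).pow_of_pos (by norm_num)
      rw [(LinearMap.isNilpotent_trace_of_isNilpotent hxnil).eq_zero] at h5
      have h6 : b ^ 2 + 2 * a * e = 0 := by
        have := (mul_eq_zero.1 h5.symm).resolve_left ht
        linear_combination this
      have h7' : ¬ (a = 0 ∧ b = 0 ∧ e = 0) := by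
        rintro ⟨rfl, rfl, rfl⟩
        apply hx0
        rw [habe]
        simp
      have h8 := T.isotropic h6 h7'
      rw [← habe] at h8
      exact h8.ne hxr
    · have hgg : rep A γ * rep A γ⁻¹ = 1 := by rw [← map_mul, mul_inv_cancel, map_one]
      have hgg' : rep A γ⁻¹ * rep A γ = 1 := by rw [← map_mul, inv_mul_cancel, map_one]
      refine T.not_independent (by omega) hgg hgg' (hall _ (lieS_conj γ hN'))
        (hall _ (lieS_conj γ hH')) (hall _ (lieS_conj γ hf')) (P := Q) ?_ hQ3
      rw [rep_eq, Matrix.charpoly_toLin', hQ]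
      congr 1
      exact Subsingleton.elim _ _

end Pool.Agent.D0H90.MJ
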