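import Pool.Agent.Y114.MU.Exc

/-!
# Operators which normalize a principal triple
-/

set_option autoImplicit false

namespace Pool.Agent.D0H90.MJ

open Module Polynomial Pool.Agent.Y114.MU

variable {K : Type*} [Field K] [CharZero K] {V : Type*} [AddCommGroup V] [Module K V]
  [FiniteDimensional K V] {N H f : End K V} {r : ℕ} {v : V}

/-- A triangular operator in the basis `Y ^ j u`. -/
theorem charpoly_tri {Y Θ : End K V} (hY : Reg Y r) {u : V} (hu : (Y ^ r) u ≠ 0) (μ ν : ℕ → K)
    (h : ∀ j, Θ ((Y ^ j) u) = μ j • (Y ^ j) u + ν j • (Y ^ (j + 1)) u) :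
    Θ.charpoly = ∏ j ∈ Finset.range (r + 1), (X - C (μ j)) := by
  rw [← LinearMap.charpoly_toMatrix Θ (hY.bas hu), ← Matrix.charpoly_transpose]
  have hb : ∀ j : ℕ, j ≤ r → ∀ i : Fin (r + 1), (hY.bas hu).repr ((Y ^ j) u) i =
      if (i : ℕ) = j then 1 else 0 := by
    intro j hj i
    have h1 := hY.bas_apply hu ⟨j, by omega⟩
    rw [← show hY.bas hu ⟨j, by omega⟩ = (Y ^ j) u from h1, Basis.repr_self, Finsupp.single_apply]
    by_cases h2 : (i : ℕ) = j
    · rw [if_pos h2, if_pos (Fin.ext h2.symm)]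
    · rw [if_neg h2, if_neg (fun h3 => h2 (congrArg Fin.val h3).symm)]
  have hb' : ∀ j : ℕ, ∀ i : Fin (r + 1), (hY.bas hu).repr ((Y ^ j) u) i =
      if (i : ℕ) = j then 1 else 0 := by
    intro j i
    by_cases hj : j ≤ r
    · exact hb j hj i
    · rw [hY.pow_zero_of_lt (show r < j by omega), LinearMap.zero_apply, map_zero, Finsupp.zero_apply,
        if_neg (by omega)]
  have hM : ∀ i j : Fin (r + 1), (LinearMap.toMatrix (hY.bas hu) (hY.bas hu) Θ).transpose i j =
      (if (j : ℕ) = i then μ i else 0) + (if (j : ℕ) = i + 1 then ν i else 0) := by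
    intro i j
    rw [Matrix.transpose_apply, LinearMap.toMatrix_apply, hY.bas_apply hu, h, map_add, map_smul,
      map_smul, Finsupp.add_apply, Finsupp.smul_apply, Finsupp.smul_apply, hb', hb', smul_eq_mul,
      smul_eq_mul, mul_ite, mul_one, mul_zero, mul_ite, mul_one, mul_zero]
  rw [Matrix.charpoly_of_isUpperTriangular]
  · rw [Finset.prod_range]
    refine Finset.prod_congr rfl fun i _ => ?_
    rw [hM, if_pos rfl, if_neg (by omega), add_zero]
  · intro i j hij
    have hij' : (j : ℕ) < i := hij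
    rw [hM, if_neg (by omega), if_neg (by omega), add_zero]

theorem P_zero (T : Triple N H f r v) (hr : 0 < r) {a b c : K}
    (h : a • N + b • H + c • f = 0) : a = 0 ∧ b = 0 ∧ c = 0 := by
  obtain ⟨t, ht, htr⟩ := T.traces hr
  have h1 := htr a b c 1 0 0
  have h2 := htr a b c 0 1 0
  have h3 := htr a b c 0 0 1
  rw [h, zero_mul, map_zero] at h1 h2 h3
  refine ⟨?_, ?_, ?_⟩
  · have := (mul_eq_zero.1 h3.symm).resolve_left ht
    linear_combination this
  · have := (mul_eq_zero.1 h2.symm).resolve_left ht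
    linear_combination this
  · have := (mul_eq_zero.1 h1.symm).resolve_left ht
    linear_combination this

/-- An operator which commutes with `N` and `H` is a scalar. -/
theorem comm_scalar (T : Triple N H f r v) {Z : End K V} (hN : Z * N = N * Z)
    (hH : Z * H = H * Z) : ∃ c : K, Z = c • 1 := by
  obtain ⟨c, hc⟩ := T.reg.exists_coeff T.vec (Z v)
  have h1 : H (Z v) = (-(r / 2 : K)) • Z v := by
    have h2 := congrArg (fun A : End K V => A v) hH
    simp only [Module.End.mul_apply] at h2
    have h3 := T.wt 0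
    rw [pow_zero, Module.End.one_apply, Nat.cast_zero, zero_sub] at h3
    rw [← h2, h3, map_smul]
  have h2 : ∑ i ∈ Finset.range (r + 1), ((i : K) * c i) • (N ^ i) v = 0 := by
    have h3 : H (Z v) + (r / 2 : K) • Z v = 0 := by
      rw [h1, neg_smul, neg_add_cancel]
    rw [hc, map_sum, Finset.smul_sum, ← Finset.sum_add_distrib] at h3
    rw [← h3]
    refine Finset.sum_congr rfl fun i _ => ?_
    rw [map_smul, T.wt, smul_smul, smul_smul, ← add_smul]
    congr 1
    ring
  have h3 := Fintype.linearIndependent_iff.1 (T.reg.linInd T.vec)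
    (fun i : Fin (r + 1) => ((i : ℕ) : K) * c i) (by
      rw [← h2, Finset.sum_range])
  have h4 : Z v = c 0 • v := by
    rw [hc, Finset.sum_eq_single 0]
    · rw [pow_zero, Module.End.one_apply]
    · intro i hi hi0
      have h5 := h3 ⟨i, Finset.mem_range.1 hi⟩
      have h6 : (i : K) ≠ 0 := Nat.cast_ne_zero.2 hi0
      rw [(mul_eq_zero.1 h5).resolve_left h6, zero_smul]
    · intro h
      exact absurd (Finset.mem_range.2 (by omega)) h
  refine ⟨c 0, T.reg.ext' T.vec fun j => ?_⟩
  have h5 : Z * N ^ j = N ^ j * Z := (Commute.pow_right hN j)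
  have h6 := congrArg (fun A : End K V => A v) h5
  simp only [Module.End.mul_apply] at h6
  rw [h6, h4, map_smul, LinearMap.smul_apply, Module.End.one_apply]

/-- A derivation of the span of a principal triple is inner. -/
theorem inner (T : Triple N H f r v) (hr : 0 < r) {Θ : End K V}
    (hN : ∃ a b c : K, Θ * N - N * Θ = a • N + b • H + c • f)
    (hH : ∃ a b c : K, Θ * H - H * Θ = a • N + b • H + c • f)
    (hf : ∃ a b c : K, Θ * f - f * Θ = a • N + b • H + c • f) :
    ∃ e α β γ : K, Θ = e • 1 + (α • N + β • H + γ • f) := by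
  obtain ⟨a1, b1, c1, h1⟩ := hN
  obtain ⟨a2, b2, c2, h2⟩ := hH
  obtain ⟨a3, b3, c3, h3⟩ := hf
  have e1 : N * H = H * N - N := by
    rw [eq_sub_iff_add_eq, add_comm, ← eq_sub_iff_add_eq]
    exact T.HN.symm
  have e2 : f * N = N * f - H := by
    rw [eq_sub_iff_add_eq, add_comm, ← eq_sub_iff_add_eq]
    exact T.Nf.symm
  have e3 : f * H = H * f + f := by
    have := T.Hf
    rw [sub_eq_iff_eq_add] at this
    rw [this]
    abel
  -- the bracket of `H` and `N`
  have q1 : (a2 • N + b2 • H + c2 • f) * N - N * (a2 • N + b2 • H + c2 • f) +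
      (H * (a1 • N + b1 • H + c1 • f) - (a1 • N + b1 • H + c1 • f) * H) =
      a1 • N + b1 • H + c1 • f := by
    rw [← h2, ← h1]
    conv_rhs => rw [← T.HN]
    noncomm_ring
  have q2 : (a2 • N + b2 • H + c2 • f) * f - f * (a2 • N + b2 • H + c2 • f) +
      (H * (a3 • N + b3 • H + c3 • f) - (a3 • N + b3 • H + c3 • f) * H) =
      -(a3 • N + b3 • H + c3 • f) := by
    rw [← h2, ← h3]
    have h4 : -(Θ * f - f * Θ) = Θ * (-f) - (-f) * Θ := by noncomm_ring
    rw [h4, ← T.Hf]
    noncomm_ring
  have q3 : (a1 • N + b1 • H + c1 • f) * f - f * (a1 • N + b1 • H + c1 • f) +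
      (N * (a3 • N + b3 • H + c3 • f) - (a3 • N + b3 • H + c3 • f) * N) =
      a2 • N + b2 • H + c2 • f := by
    rw [← h1, ← h3, ← h2]
    conv_rhs => rw [← T.Nf]
    noncomm_ring
  have p1 : b2 • N + (-c2 - b1) • H + (-c1 - c1) • f = 0 := by
    rw [← sub_eq_zero] at q1
    rw [← q1]
    simp only [add_mul, mul_add, smul_mul_assoc, mul_smul_comm, e1, e2, e3, smul_sub, smul_add,
      sub_smul, neg_smul]
    abel
  have p2 : (a3 + a3) • N + (a2 + b3) • H + (-b2) • f = 0 := by
    rw [eq_neg_iff_add_eq_zero] at q2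
    rw [← q2]
    simp only [add_mul, mul_add, smul_mul_assoc, mul_smul_comm, e1, e2, e3, smul_sub, smul_add,
      sub_smul, neg_smul, add_smul]
    abel
  have p3 : (-b3 - a2) • N + (a1 + c3 - b2) • H + (-b1 - c2) • f = 0 := by
    rw [← sub_eq_zero] at q3
    rw [← q3]
    simp only [add_mul, mul_add, smul_mul_assoc, mul_smul_comm, e1, e2, e3, smul_sub, smul_add,
      sub_smul, neg_smul, add_smul]
    abel
  obtain ⟨r1, r2, r3⟩ := P_zero T hr p1
  obtain ⟨r4, r5, r6⟩ := P_zero T hr p2
  obtain ⟨r7, r8, r9⟩ := P_zero T hr p3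
  have hc1 : c1 = 0 := by
    have : (2 : K) * c1 = 0 := by linear_combination -r3
    exact (mul_eq_zero.1 this).resolve_left two_ne_zero
  have hc2 : c2 = -b1 := by linear_combination -r2
  -- the difference commutes with `N` and `H`
  have hZN : (Θ - ((-a2) • N + a1 • H + (-b1) • f)) * N =
      N * (Θ - ((-a2) • N + a1 • H + (-b1) • f)) := by
    have h4 : Θ * N = N * Θ + (a1 • N + b1 • H + c1 • f) := by rw [← h1]; abel
    rw [sub_mul, mul_sub, h4, hc1]
    simp only [add_mul, mul_add, smul_mul_assoc, mul_smul_comm, e1, e2, e3, smul_sub, smul_add,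
      neg_smul, zero_smul, mul_neg, neg_mul]
    abel
  have hZH : (Θ - ((-a2) • N + a1 • H + (-b1) • f)) * H =
      H * (Θ - ((-a2) • N + a1 • H + (-b1) • f)) := by
    have h4 : Θ * H = H * Θ + (a2 • N + b2 • H + c2 • f) := by rw [← h2]; abel
    rw [sub_mul, mul_sub, h4, hc2, r1]
    simp only [add_mul, mul_add, smul_mul_assoc, mul_smul_comm, e1, e2, e3, smul_sub, smul_add,
      neg_smul, zero_smul, mul_neg, neg_mul]
    abel
  obtain ⟨e, he⟩ := comm_scalar T hZN hZH
  exact ⟨e, -a2, a1, -b1, by rw [← he]; abel⟩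

/-- **The eigenvalues are in arithmetic progression.** -/
theorem charpoly_progression [IsAlgClosed K] (T : Triple N H f r v) (hr : 0 < r) {Θ : End K V}
    (hN : ∃ a b c : K, Θ * N - N * Θ = a • N + b • H + c • f)
    (hH : ∃ a b c : K, Θ * H - H * Θ = a • N + b • H + c • f)
    (hf : ∃ a b c : K, Θ * f - f * Θ = a • N + b • H + c • f) :
    ∃ a d : K, Θ.charpoly = ∏ j ∈ Finset.range (r + 1), (X - C (a + (j : K) * d)) := by
  obtain ⟨e, α, β, γ, hΘ⟩ := inner T hr hN hH hf
  by_cases h0 : α = 0 ∧ β = 0 ∧ γ = 0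
  · obtain ⟨rfl, rfl, rfl⟩ := h0
    refine ⟨e, 0, charpoly_tri T.reg T.vec (fun j => e + (j : K) * 0) (fun _ => 0) fun j => ?_⟩
    rw [hΘ]
    simp
  by_cases hq : β ^ 2 + 2 * α * γ = 0
  · have h1 := T.isotropic hq h0
    obtain ⟨u, hu⟩ := h1.exists_vec
    refine ⟨e, 0, charpoly_tri h1 hu (fun j => e + (j : K) * 0) (fun _ => 1) fun j => ?_⟩
    rw [mul_zero, add_zero, one_smul, pow_succ', Module.End.mul_apply, hΘ]
    rfl
  · obtain ⟨lam, hlam⟩ := IsAlgClosed.exists_pow_nat_eq (β ^ 2 + 2 * α * γ) (n := 2) (by norm_num)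
    have hlam0 : lam ≠ 0 := by
      rintro rfl
      apply hq
      rw [← hlam]
      norm_num
    obtain ⟨a, b, c, habc, hiso, k1, k2, k3⟩ : ∃ a b c : K, ¬ (a = 0 ∧ b = 0 ∧ c = 0) ∧
        b ^ 2 + 2 * a * c = 0 ∧ β * a - α * b = lam * a ∧ α * c - γ * a = lam * b ∧
        γ * b - β * c = lam * c := by
      by_cases hγ : γ = 0
      · subst hγ
        have h1 : (lam - β) * (lam + β) = 0 := by linear_combination hlam
        rcases mul_eq_zero.1 h1 with h2 | h2
        · exact ⟨1, 0, 0, by simp, by ring, by linear_combination -h2, by ring, by ring⟩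
        · -- `lam = -β`
          refine ⟨-(α ^ 2) / 2, lam * α, lam ^ 2, ?_, by ring, ?_, ?_, ?_⟩
          · rintro ⟨-, -, h3⟩
            exact hlam0 (pow_eq_zero_iff (two_ne_zero) |>.1 h3)
          · have h3 : β = -lam := by linear_combination h2
            rw [h3]
            ring
          · ring
          · have h3 : β = -lam := by linear_combination h2
            rw [h3]
            ring
      · refine ⟨(α * γ - lam * (lam + β)) / γ, lam + β, γ, fun h => hγ h.2.2, ?_, ?_, ?_, by ring⟩
        · field_simp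
          linear_combination -hlam
        · field_simp
          linear_combination lam * hlam
        · field_simp
          ring
    set Y := a • N + b • H + c • f with hY
    have hYr : Reg Y r := T.isotropic hiso habc
    have e1 : N * H = H * N - N := by
      rw [eq_sub_iff_add_eq, add_comm, ← eq_sub_iff_add_eq]
      exact T.HN.symm
    have e2 : f * N = N * f - H := by
      rw [eq_sub_iff_add_eq, add_comm, ← eq_sub_iff_add_eq]
      exact T.Nf.symm
    have e3 : f * H = H * f + f := by
      have := T.Hf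
      rw [sub_eq_iff_eq_add] at this
      rw [this]
      abel
    have hbr : Θ * Y - Y * Θ = lam • Y := by
      have h1 : Θ * Y - Y * Θ = (β * a - α * b) • N + (α * c - γ * a) • H + (γ * b - β * c) • f := by
        rw [hΘ, hY]
        simp only [add_mul, mul_add, smul_mul_assoc, mul_smul_comm, e1, e2, e3, smul_sub, smul_add,
          sub_smul, one_mul, mul_one, smul_smul]
        simp only [mul_comm a, mul_comm b, mul_comm c]
        abel
      rw [h1, k1, k2, k3, hY, smul_add, smul_add, smul_smul, smul_smul, smul_smul]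
    have hbr' : (lam⁻¹ • Θ) * Y - Y * (lam⁻¹ • Θ) = Y := by
      rw [smul_mul_assoc, mul_smul_comm, ← smul_sub, hbr, smul_smul, inv_mul_cancel₀ hlam0, one_smul]
    obtain ⟨u, μ, hu, hμ⟩ := hYr.exists_adapted hbr'
    have hcp := comm_pow hbr'
    refine ⟨lam * μ, lam, charpoly_tri hYr hu (fun j => lam * μ + (j : K) * lam) (fun _ => 0)
      fun j => ?_⟩
    have h1 := congrArg (fun A : End K V => A u) (hcp j)
    simp only [Module.End.mul_apply, LinearMap.add_apply, LinearMap.smul_apply] at h1
    rw [LinearMap.smul_apply] at hμ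
    rw [hμ, map_smul, ← add_smul] at h1
    have h2 := congrArg (fun x : V => lam • x) h1
    simp only [smul_smul] at h2
    rw [mul_inv_cancel₀ hlam0, one_smul] at h2
    rw [h2, zero_smul, add_zero]
    congr 1
    ring

end Pool.Agent.D0H90.MJ
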